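import Mathlib
import Pool.Agent.MP_5230e1_gt.Defs
import Pool.Agent.Lib.CupDegree.Basic

-- part MP_5230e1_gt.Iso
section

/-!
Ambient isotopies: equivalence relation, construction from proper families of bijections,
radial isotopies and small Lipschitz perturbations of the identity.
-/

set_option autoImplicit false

namespace Pool.Agent.MP_5230e1_gt

open Set Filter Topology Metric

variable {E : Type*} [NormedAddCommGroup E] [NormedSpace ℝ E] {ι : Type*}

omit [NormedSpace ℝ E] in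
theorem AmbientIsotopic.refl (F : ι → Set E) : AmbientIsotopic F F :=
  ⟨fun _ => Homeomorph.refl E, continuous_snd, continuous_snd, rfl, fun _ => by simp⟩

omit [NormedSpace ℝ E] in
theorem AmbientIsotopic.symm {F F' : ι → Set E} (h : AmbientIsotopic F F') :
    AmbientIsotopic F' F := by
  obtain ⟨H, h1, h2, h3, h4⟩ := h
  refine ⟨fun t => (H t).symm, h2, h1, by simp only [h3]; rfl, fun i => ?_⟩
  rw [← h4 i]
  exact (H 1).toEquiv.symm_image_image _

omit [NormedSpace ℝ E] in
theorem AmbientIsotopic.trans {F F' F'' : ι → Set E} (h : AmbientIsotopic F F')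
    (h' : AmbientIsotopic F' F'') : AmbientIsotopic F F'' := by
  obtain ⟨H, h1, h2, h3, h4⟩ := h
  obtain ⟨G, g1, g2, g3, g4⟩ := h'
  refine ⟨fun t => (H t).trans (G t), g1.comp (continuous_fst.prodMk h1),
    h2.comp (continuous_fst.prodMk g2), by simp only [h3, g3]; rfl, fun i => ?_⟩
  rw [← g4 i, ← h4 i, image_image]
  rfl

omit [NormedSpace ℝ E] in
theorem AmbientIsotopic.isUnlink {F F' : ι → Set E} (h : AmbientIsotopic F F') {k : ι → ℕ}
    {S : Set ι} (hS : IsUnlink k F S) : IsUnlink k F' S := by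
  obtain ⟨H, -, -, -, h4⟩ := h
  intro i hi
  obtain ⟨e, e1, e2, e3, e4⟩ := hS i hi
  refine ⟨H 1 ∘ e, (H 1).continuous.comp e1, (H 1).injective.comp e2, ?_, fun j hj hji => ?_⟩
  · rw [image_comp, e3, h4]
  · rw [range_comp, ← h4]
    exact (disjoint_image_iff (H 1).injective).2 (e4 j hj hji)

omit [NormedSpace ℝ E] in
theorem AmbientIsotopic.disjoint {F F' : ι → Set E} (h : AmbientIsotopic F F') {i j : ι}
    (hij : Disjoint (F i) (F j)) : Disjoint (F' i) (F' j) := by
  obtain ⟨H, -, -, -, h4⟩ := h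
  rw [← h4, ← h4]
  exact (disjoint_image_iff (H 1).injective).2 hij

theorem isotopic_of_proper [FiniteDimensional ℝ E] (H : unitInterval → E → E)
    (hc : Continuous fun p : unitInterval × E => H p.1 p.2) (hb : ∀ t, Function.Bijective (H t))
    (h0 : ∀ y, H 0 y = y) (hp : ∀ R, ∃ R', ∀ t y, ‖H t y‖ ≤ R → ‖y‖ ≤ R')
    (F : ι → Set E) : AmbientIsotopic F (fun i => H 1 '' F i) := by
  haveI : ProperSpace E := FiniteDimensional.proper ℝ E
  let G : unitInterval × E → unitInterval × E := fun p => (p.1, H p.1 p.2)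
  have hG : Continuous G := continuous_fst.prodMk hc
  have hGb : Function.Bijective G := by
    constructor
    · rintro ⟨t, y⟩ ⟨s, z⟩ h
      simp only [G, Prod.mk.injEq] at h
      obtain ⟨rfl, h⟩ := h
      rw [(hb t).1 h]
    · rintro ⟨t, z⟩
      obtain ⟨y, hy⟩ := (hb t).2 z
      exact ⟨(t, y), by simp [G, hy]⟩
  have hGp : IsProperMap G := by
    rw [isProperMap_iff_isCompact_preimage]
    refine ⟨hG, fun K hK => ?_⟩
    obtain ⟨R, hR⟩ := (hK.image continuous_snd).isBounded.exists_norm_le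
    obtain ⟨R', hR'⟩ := hp R
    refine ((isCompact_univ (X := unitInterval)).prod (isCompact_closedBall (0 : E) R')).of_isClosed_subset
      (hK.isClosed.preimage hG) fun p hp' => ⟨trivial, ?_⟩
    simpa using hR' p.1 p.2 (hR _ ⟨_, hp', rfl⟩)
  have hGh : IsHomeomorph G :=
    isHomeomorph_iff_continuous_isClosedMap_bijective.2 ⟨hG, hGp.isClosedMap, hGb⟩
  let Γ := hGh.homeomorph
  have hΓ : ∀ p, Γ p = G p := fun _ => rfl
  have hinv : ∀ t z, H t (Γ.symm (t, z)).2 = z := by
    intro t z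
    have h1 := Γ.apply_symm_apply (t, z)
    rw [hΓ] at h1
    simp only [G, Prod.ext_iff] at h1
    rw [← h1.1]
    simpa [h1.1] using h1.2
  refine ⟨fun t =>
    { toFun := H t
      invFun := fun z => (Γ.symm (t, z)).2
      left_inv := fun y => (hb t).1 (hinv t _)
      right_inv := fun z => hinv t z
      continuous_toFun := hc.comp (continuous_const.prodMk continuous_id)
      continuous_invFun := continuous_snd.comp (Γ.symm.continuous.comp
        (continuous_const.prodMk continuous_id)) }, hc,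
      continuous_snd.comp Γ.symm.continuous, ?_, fun _ => rfl⟩
  ext y
  exact h0 y

theorem isotopic_radial [FiniteDimensional ℝ E] (x : E) (Ψ : E → ℝ) (hc : ContinuousOn Ψ {0}ᶜ)
    (M : ℝ) (hM : ∀ q, |Ψ q| ≤ M)
    (hm : ∀ q, q ≠ 0 → ∀ τ : ℝ, 0 < τ → Ψ q - τ < Ψ (Real.exp τ • q)) (F : ι → Set E) :
    AmbientIsotopic F (fun i => (fun y => x + Real.exp (Ψ (y - x)) • (y - x)) '' F i) := by
  have hM0 : 0 ≤ M := (abs_nonneg _).trans (hM 0)
  have hb : ∀ (t : unitInterval) q, |(t : ℝ) * Ψ q| ≤ M := by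
    intro t q
    rw [abs_mul, abs_of_nonneg t.2.1]
    have := hM q
    have := abs_nonneg (Ψ q)
    have := t.2.2
    have := t.2.1
    nlinarith
  have key := isotopic_of_proper
    (fun (t : unitInterval) y => x + Real.exp (t * Ψ (y - x)) • (y - x)) ?_ ?_ (by simp) ?_ F
  · simpa using key
  · have : Continuous fun p : unitInterval × E => Real.exp (p.1 * Ψ p.2) • p.2 := by
      rw [continuous_iff_continuousAt]
      rintro ⟨t, q⟩
      by_cases hq : q = 0
      · subst hq
        rw [ContinuousAt]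
        simp only [smul_zero]
        refine squeeze_zero_norm (a := fun p => Real.exp M * ‖p.2‖) (fun p => ?_) ?_
        · rw [norm_smul, Real.norm_eq_abs, abs_of_pos (Real.exp_pos _)]
          gcongr
          exact (le_abs_self _).trans (hb _ _)
        · have : Continuous fun p : unitInterval × E => Real.exp M * ‖p.2‖ := by fun_prop
          simpa using this.tendsto (t, 0)
      · have h1 : ContinuousAt Ψ q := hc.continuousAt (isOpen_compl_singleton.mem_nhds hq)
        have h2 : ContinuousAt (fun p : unitInterval × E => Ψ p.2) (t, q) :=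
          ContinuousAt.comp (g := Ψ) (f := Prod.snd) h1 continuous_snd.continuousAt
        have h3 : ContinuousAt (fun p : unitInterval × E => (p.1 : ℝ)) (t, q) := by fun_prop
        exact (h3.mul h2).rexp.smul continuous_snd.continuousAt
    exact continuous_const.add (this.comp (continuous_fst.prodMk (continuous_snd.sub continuous_const)))
  · intro t
    constructor
    · have key : ∀ q q' : E, Real.exp (t * Ψ q) • q = Real.exp (t * Ψ q') • q' →
          (t : ℝ) * Ψ q' ≤ t * Ψ q → q = q' := by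
        intro q q' h hle
        have h1 : q' = Real.exp (t * Ψ q - t * Ψ q') • q := by
          rw [sub_eq_neg_add, Real.exp_add, mul_smul, h, smul_smul, ← Real.exp_add]; simp
        rcases hle.eq_or_lt with h2 | h2
        · rw [h1, h2]; simp
        · by_cases hq : q = 0
          · rw [h1, hq]; simp
          · have h3 := hm q hq _ (sub_pos.2 h2)
            rw [← h1] at h3
            have := t.2.1
            have := t.2.2
            have h4 : 0 < Ψ q - Ψ q' := by
              by_contra h5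
              nlinarith
            nlinarith
      intro y z h
      simp only [add_right_inj] at h
      rcases le_total ((t : ℝ) * Ψ (z - x)) (t * Ψ (y - x)) with h1 | h1
      · simpa using key _ _ h h1
      · simpa using (key _ _ h.symm h1).symm
    · intro z
      by_cases hz : z - x = 0
      · exact ⟨z, by simp [hz, (sub_eq_zero.1 hz)]⟩
      · have h1 : Continuous fun τ : ℝ => τ + t * Ψ (Real.exp τ • (z - x)) := by
          refine continuous_id.add (continuous_const.mul (hc.comp_continuous (by fun_prop) ?_))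
          intro τ
          simp [hz]
        obtain ⟨τ, -, hτ⟩ := intermediate_value_Icc (show -M ≤ M by linarith) h1.continuousOn
          (show (0 : ℝ) ∈ _ from ⟨by linarith [(abs_le.1 (hb t (Real.exp (-M) • (z - x)))).2],
            by linarith [(abs_le.1 (hb t (Real.exp M • (z - x)))).1]⟩)
        refine ⟨x + Real.exp τ • (z - x), ?_⟩
        simp only [add_sub_cancel_left] at hτ ⊢
        rw [smul_smul, ← Real.exp_add, add_comm _ τ, hτ]; simp
  · intro R
    refine ⟨‖x‖ + Real.exp M * (R + ‖x‖), fun t y h => ?_⟩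
    have h1 : ‖Real.exp (t * Ψ (y - x)) • (y - x)‖ ≤ R + ‖x‖ := by
      have := norm_sub_le (x + Real.exp (t * Ψ (y - x)) • (y - x)) x
      rw [add_sub_cancel_left] at this
      linarith
    have h2 : y - x = Real.exp (-(t * Ψ (y - x))) • Real.exp (t * Ψ (y - x)) • (y - x) := by
      rw [smul_smul, ← Real.exp_add]; simp
    have h3 : ‖y - x‖ ≤ Real.exp M * (R + ‖x‖) := by
      rw [h2, norm_smul, Real.norm_eq_abs, abs_of_pos (Real.exp_pos _)]
      gcongr
      exact (neg_le_abs _).trans (hb _ _)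
    have h4 := norm_add_le x (y - x)
    rw [add_sub_cancel] at h4
    linarith

theorem isotopic_lipschitz [FiniteDimensional ℝ E] (g : E → E)
    (hg : ∀ y z, ‖g y - g z‖ ≤ 1 / 2 * ‖y - z‖) (F : ι → Set E) :
    AmbientIsotopic F (fun i => (fun y => y + g y) '' F i) := by
  haveI : CompleteSpace E := FiniteDimensional.complete ℝ E
  have hL : LipschitzWith (1 / 2) g := LipschitzWith.of_dist_le_mul fun y z => by
    simpa [dist_eq_norm] using hg y z
  have hgc := hL.continuous
  have ht : ∀ (t : unitInterval) (v : E), ‖(t : ℝ) • v‖ ≤ ‖v‖ := fun t v => by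
    rw [norm_smul, Real.norm_eq_abs, abs_of_nonneg t.2.1]
    exact mul_le_of_le_one_left (norm_nonneg _) t.2.2
  have key := isotopic_of_proper (fun (t : unitInterval) y => y + (t : ℝ) • g y) (by fun_prop) ?_
    (by simp) ?_ F
  · simpa using key
  · intro t
    constructor
    · intro y z h
      simp only at h
      have h1 : y - z = -((t : ℝ) • (g y - g z)) := by
        rw [smul_sub, ← sub_eq_zero, ← sub_eq_zero.2 h]; abel
      have h2 := ht t (g y - g z)
      have h3 := hg y z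
      rw [← norm_neg, ← h1] at h2
      have := norm_nonneg (y - z)
      exact sub_eq_zero.1 (norm_eq_zero.1 (by linarith))
    · intro z
      have hC : ContractingWith (1 / 2) fun y => z - (t : ℝ) • g y := by
        refine ⟨by norm_num, LipschitzWith.of_dist_le_mul fun y w => ?_⟩
        rw [dist_eq_norm, dist_eq_norm]
        have : z - (t : ℝ) • g y - (z - (t : ℝ) • g w) = -((t : ℝ) • (g y - g w)) := by
          rw [smul_sub]; abel
        rw [this, norm_neg]
        simpa using (ht t _).trans (hg y w)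
      refine ⟨hC.fixedPoint, ?_⟩
      have := hC.fixedPoint_isFixedPt
      rw [Function.IsFixedPt] at this
      simp only
      rw [← eq_sub_iff_add_eq]
      exact this.symm
  · intro R
    refine ⟨2 * (R + ‖g 0‖), fun t y h => ?_⟩
    have h1 := norm_sub_le (y + (t : ℝ) • g y) ((t : ℝ) • g y)
    rw [add_sub_cancel_right] at h1
    have h2 := ht t (g y)
    have h3 := hg y 0
    have h4 := norm_add_le (g y - g 0) (g 0)
    rw [sub_add_cancel] at h4
    rw [sub_zero] at h3
    linarith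

end Pool.Agent.MP_5230e1_gt

end

-- part MP_5230e1_gt.Body
section

/-!
Convex bodies in affine planes, their relative interiors and boundaries, gauges.
-/

set_option autoImplicit false

namespace Pool.Agent.MP_5230e1_gt

open Set Filter Topology Metric

variable {E : Type*} [NormedAddCommGroup E] [InnerProductSpace ℝ E]

/-- relative interior in the direction `V` -/
def ri (V : Submodule ℝ E) (C : Set E) : Set E :=
  {y | ∃ δ > 0, ∀ v ∈ V, ‖v‖ < δ → y + v ∈ C}

/-- relative boundary in the direction `V` -/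
def bd (V : Submodule ℝ E) (C : Set E) : Set E := C \ ri V C

/-- `C` is a convex body of the affine plane `a + V` -/
structure Body (a : E) (V : Submodule ℝ E) (C : Set E) : Prop where
  compact : IsCompact C
  convex : Convex ℝ C
  sub : ∀ y ∈ C, y - a ∈ V
  ne : (ri V C).Nonempty

/-- `ρ` extends the gauge of `C` centred at `x` -/
structure IsGauge (V : Submodule ℝ E) (C : Set E) (x : E) (ρ : E → ℝ) : Prop where
  cont : Continuous ρ
  hom : ∀ t : ℝ, 0 ≤ t → ∀ q, ρ (t • q) = t * ρ q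
  lower : ∃ c > 0, ∀ q, c * ‖q‖ ≤ ρ q
  upper : ∃ c > 0, ∀ q, ρ q ≤ c * ‖q‖
  le : ∀ q ∈ V, x + q ∈ C ↔ ρ q ≤ 1
  lt : ∀ q ∈ V, x + q ∈ ri V C ↔ ρ q < 1

variable {a x : E} {V : Submodule ℝ E} {C C' D : Set E} {ρ : E → ℝ}

theorem ri_subset : ri V C ⊆ C := by
  rintro y ⟨δ, hδ, h⟩
  simpa using h 0 V.zero_mem (by simpa using hδ)

theorem ri_mono (h : C ⊆ C') : ri V C ⊆ ri V C' := by
  rintro y ⟨δ, hδ, h'⟩
  exact ⟨δ, hδ, fun v hv hv' => h (h' v hv hv')⟩

theorem bd_subset : bd V C ⊆ C := fun _ h => h.1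

theorem ri_inter {y : E} (h : y ∈ ri V C) (hD : D ∈ 𝓝 y) : y ∈ ri V (C ∩ D) := by
  obtain ⟨δ, hδ, h⟩ := h
  obtain ⟨ε, hε, hD⟩ := Metric.mem_nhds_iff.1 hD
  refine ⟨min δ ε, lt_min hδ hε, fun v hv hv' => ⟨h v hv (hv'.trans_le (min_le_left _ _)), hD ?_⟩⟩
  simpa [dist_eq_norm] using hv'.trans_le (min_le_right _ _)

theorem Body.sub_mem (h : Body a V C) {y z : E} (hy : y ∈ C) (hz : z ∈ C) : y - z ∈ V := by
  simpa using V.sub_mem (h.sub y hy) (h.sub z hz)

theorem Body.inter (h : Body a V C) (hD : IsClosed D) (hD' : Convex ℝ D) {y : E}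
    (hy : y ∈ ri V C) (hy' : D ∈ 𝓝 y) : Body a V (C ∩ D) :=
  ⟨h.compact.inter_right hD, h.convex.inter hD', fun y hy => h.sub y hy.1, y, ri_inter hy hy'⟩

theorem Body.exists_gauge [FiniteDimensional ℝ E] (h : Body a V C) (hx : x ∈ ri V C) :
    ∃ ρ, IsGauge V C x ρ := by
  let s : Set V := {v | x + v ∈ C}
  have hsc : Convex ℝ s := by
    intro v hv w hw α β hα hβ hαβ
    have := h.convex hv hw hα hβ hαβ
    simp only [s, mem_ofPred_eq, Submodule.coe_add, Submodule.coe_smul]
    convert this using 1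
    rw [smul_add, smul_add]
    conv_lhs => rw [← one_smul ℝ x, ← hαβ, add_smul]
    abel
  have hint : ∀ q : V, q ∈ interior s ↔ x + q ∈ ri V C := by
    intro q
    rw [mem_interior_iff_mem_nhds, Metric.mem_nhds_iff]
    constructor
    · rintro ⟨δ, hδ, h⟩
      refine ⟨δ, hδ, fun v hv hv' => ?_⟩
      have := h (a := q + ⟨v, hv⟩) (by simpa [dist_eq_norm] using hv')
      simpa [s, add_assoc] using this
    · rintro ⟨δ, hδ, h⟩
      refine ⟨δ, hδ, fun w hw => ?_⟩
      have := h (w - q : V) (w - q).2 (by simpa [dist_eq_norm] using hw)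
      simpa [s] using this
  have hs0 : s ∈ 𝓝 0 := mem_interior_iff_mem_nhds.1 ((hint 0).2 (by simpa using hx))
  have hcl : IsClosed s := h.compact.isClosed.preimage (by fun_prop)
  obtain ⟨R, hR⟩ := h.compact.isBounded.subset_closedBall x
  have hsR : s ⊆ closedBall 0 (max R 1) := fun v hv => by
    have := hR hv
    simp only [mem_closedBall, dist_self_add_left, dist_zero_right] at this ⊢
    exact this.trans (le_max_left _ _)
  obtain ⟨δ, hδ, hδs⟩ := Metric.mem_nhds_iff.1 hs0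
  let π := V.orthogonalProjectionOnto
  have hπ : ∀ q (hq : q ∈ V), π q = ⟨q, hq⟩ := fun q hq =>
    V.orthogonalProjectionOnto_mem_subspace_eq_self ⟨q, hq⟩
  refine ⟨fun q => gauge s (π q) + ‖q - π q‖, ?_, ?_, ?_, ?_, ?_, ?_⟩
  · have := continuous_gauge hsc hs0
    fun_prop
  · intro t ht q
    rw [map_smul, gauge_smul_of_nonneg ht, Submodule.coe_smul, ← smul_sub, norm_smul,
      Real.norm_eq_abs, abs_of_nonneg ht, smul_eq_mul]
    ring
  · refine ⟨(max R 1)⁻¹, by positivity, fun q => ?_⟩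
    have h1 := le_gauge_of_subset_closedBall (x := π q) (absorbent_nhds_zero hs0)
      (by positivity) hsR
    have h2 : ‖q‖ ≤ ‖π q‖ + ‖q - π q‖ := by
      have := norm_add_le (π q : E) (q - π q)
      simpa using this
    have h3 : (max R 1)⁻¹ ≤ 1 := inv_le_one_of_one_le₀ (le_max_right _ _)
    have h4 : 0 < (max R 1)⁻¹ := by positivity
    rw [div_eq_inv_mul] at h1
    have := norm_nonneg (q - π q)
    nlinarith
  · refine ⟨δ⁻¹ + 2, by positivity, fun q => ?_⟩
    have h1 := mul_gauge_le_norm (x := π q) hδs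
    have h2 : ‖π q‖ ≤ ‖q‖ := V.norm_orthogonalProjectionOnto_apply_le q
    have h3 : ‖q - π q‖ ≤ ‖q‖ + ‖π q‖ := norm_sub_le _ _
    have h4 : gauge s (π q) ≤ δ⁻¹ * ‖q‖ := by
      rw [inv_mul_eq_div, le_div_iff₀ hδ]; linarith
    linarith
  · intro q hq
    rw [hπ q hq]
    simp only [sub_self, norm_zero, add_zero]
    rw [gauge_le_one_iff_mem_closure hsc hs0, hcl.closure_eq]
    rfl
  · intro q hq
    rw [hπ q hq]
    simp only [sub_self, norm_zero, add_zero]
    rw [gauge_lt_one_iff_mem_interior hsc hs0, hint]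

theorem IsGauge.zero (h : IsGauge V C x ρ) : ρ 0 = 0 := by
  simpa using h.hom 0 le_rfl 0

theorem IsGauge.nonneg (h : IsGauge V C x ρ) (q : E) : 0 ≤ ρ q := by
  obtain ⟨c, hc, h⟩ := h.lower
  exact le_trans (by positivity) (h q)

theorem IsGauge.pos (h : IsGauge V C x ρ) {q : E} (hq : q ≠ 0) : 0 < ρ q := by
  obtain ⟨c, hc, h⟩ := h.lower
  exact lt_of_lt_of_le (mul_pos hc (norm_pos_iff.2 hq)) (h q)

theorem IsGauge.eq (h : IsGauge V C x ρ) {q : E} (hq : q ∈ V) : x + q ∈ bd V C ↔ ρ q = 1 := by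
  rw [bd, Set.mem_sdiff, h.le q hq, h.lt q hq]
  constructor
  · rintro ⟨h1, h2⟩; linarith [not_lt.1 h2]
  · intro h; simp [h]

theorem IsGauge.normalize (h : IsGauge V C x ρ) {q : E} (hq : q ∈ V) (hq0 : q ≠ 0) :
    x + (ρ q)⁻¹ • q ∈ bd V C := by
  have := h.pos hq0
  rw [h.eq (V.smul_mem _ hq), h.hom _ (by positivity), inv_mul_cancel₀ this.ne']

theorem IsGauge.le' (h : IsGauge V C x ρ) {y : E} (hy : y - x ∈ V) : y ∈ C ↔ ρ (y - x) ≤ 1 := by
  simpa using h.le _ hy

theorem IsGauge.lt' (h : IsGauge V C x ρ) {y : E} (hy : y - x ∈ V) :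
    y ∈ ri V C ↔ ρ (y - x) < 1 := by
  simpa using h.lt _ hy

theorem IsGauge.eq' (h : IsGauge V C x ρ) {y : E} (hy : y - x ∈ V) :
    y ∈ bd V C ↔ ρ (y - x) = 1 := by
  simpa using h.eq hy

theorem Body.bd_closed [FiniteDimensional ℝ E] (h : Body a V C) : IsClosed (bd V C) := by
  obtain ⟨x, hx⟩ := h.ne
  obtain ⟨ρ, hρ⟩ := h.exists_gauge hx
  have : bd V C = C ∩ {y | ρ (y - x) = 1} := by
    ext y
    constructor
    · intro hy
      exact ⟨hy.1, (hρ.eq' (h.sub_mem hy.1 (ri_subset hx))).1 hy⟩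
    · intro hy
      exact (hρ.eq' (h.sub_mem hy.1 (ri_subset hx))).2 hy.2
  rw [this]
  have := hρ.cont
  exact h.compact.isClosed.inter (isClosed_eq (by fun_prop) continuous_const)

theorem Body.bd_compact [FiniteDimensional ℝ E] (h : Body a V C) : IsCompact (bd V C) :=
  h.compact.of_isClosed_subset h.bd_closed bd_subset

theorem Body.bd_nonempty [FiniteDimensional ℝ E] (h : Body a V C) (hV : V ≠ ⊥) :
    (bd V C).Nonempty := by
  obtain ⟨x, hx⟩ := h.ne
  obtain ⟨ρ, hρ⟩ := h.exists_gauge hx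
  obtain ⟨q, hq, hq0⟩ := (Submodule.ne_bot_iff V).1 hV
  exact ⟨_, hρ.normalize hq hq0⟩

/-- a convex set meeting `C` but not its boundary meets the plane of `C` inside `ri C` -/
theorem Body.subset_ri [FiniteDimensional ℝ E] (h : Body a V C) (hD : Convex ℝ D) {p : E}
    (hp : p ∈ D) (hp' : p ∈ C) (hd : ∀ y ∈ bd V C, y ∉ D) {y : E} (hy : y ∈ D) (hy' : y - a ∈ V) :
    y ∈ ri V C := by
  have hpr : p ∈ ri V C := by
    by_contra hc
    exact hd p ⟨hp', hc⟩ hp
  obtain ⟨ρ, hρ⟩ := h.exists_gauge hpr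
  have hq : y - p ∈ V := by simpa using V.sub_mem hy' (h.sub p hp')
  rw [hρ.lt' hq]
  by_contra hc
  push Not at hc
  have hq0 : y - p ≠ 0 := by
    intro h0; rw [h0, hρ.zero] at hc; linarith
  refine hd _ (hρ.normalize hq hq0) (hD.add_smul_sub_mem hp hy ⟨by positivity, ?_⟩)
  exact inv_le_one_of_one_le₀ hc

theorem body_of_convexKnot [FiniteDimensional ℝ E] {k : ℕ} {K : Set E} (h : IsConvexKnot k K) :
    ∃ (a : E) (V : Submodule ℝ E) (C : Set E), Body a V C ∧ Module.finrank ℝ V = k + 1 ∧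
      K = bd V C := by
  obtain ⟨C, h1, h2, h3, rfl⟩ := h
  have hne : C.Nonempty := by
    by_contra hc
    rw [not_nonempty_iff_eq_empty.1 hc, vectorSpan_empty, finrank_bot] at h3
    omega
  have hri : intrinsicInterior ℝ C = ri (vectorSpan ℝ C) C := by
    ext y
    rw [mem_intrinsicInterior]
    constructor
    · rintro ⟨z, hz, rfl⟩
      rw [mem_interior_iff_mem_nhds, Metric.mem_nhds_iff] at hz
      obtain ⟨δ, hδ, h⟩ := hz
      refine ⟨δ, hδ, fun v hv hv' => ?_⟩
      have hm : v +ᵥ (z : E) ∈ affineSpan ℝ C :=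
        AffineSubspace.vadd_mem_of_mem_direction (by rwa [direction_affineSpan]) z.2
      have := h (a := ⟨_, hm⟩) (by simpa [Subtype.dist_eq, dist_eq_norm] using hv')
      simpa [add_comm] using this
    · intro hy
      refine ⟨⟨y, subset_affineSpan ℝ C (ri_subset hy)⟩, ?_, rfl⟩
      obtain ⟨δ, hδ, h⟩ := hy
      rw [mem_interior_iff_mem_nhds, Metric.mem_nhds_iff]
      refine ⟨δ, hδ, fun w hw => ?_⟩
      have hy : y ∈ C := by simpa using h 0 (Submodule.zero_mem _) (by simpa using hδ)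
      have := h (w - y) (by
        rw [← direction_affineSpan]
        exact AffineSubspace.vsub_mem_direction w.2 (subset_affineSpan ℝ C hy))
        (by simpa [Subtype.dist_eq, dist_eq_norm] using hw)
      simpa using this
  obtain ⟨a, ha⟩ := hne
  refine ⟨a, vectorSpan ℝ C, C, ⟨h1, h2, fun y hy => vsub_mem_vectorSpan ℝ hy ha, ?_⟩, h3, ?_⟩
  · rw [← hri]; exact Set.Nonempty.intrinsicInterior h2 ⟨a, ha⟩
  · rw [bd, ← hri, ← closure_sdiff_intrinsicInterior, h1.isClosed.closure_eq]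

theorem Body.exists_ball [FiniteDimensional ℝ E] (h : Body a V C) {k : ℕ}
    (hk : Module.finrank ℝ V = k + 1) :
    ∃ e : closedBall (0 : EuclideanSpace ℝ (Fin (k + 1))) 1 → E,
      Continuous e ∧ Function.Injective e ∧ e '' {u | ‖u.1‖ = 1} = bd V C ∧ range e ⊆ C := by
  obtain ⟨x, hx⟩ := h.ne
  obtain ⟨ρ, hρ⟩ := h.exists_gauge hx
  let L : EuclideanSpace ℝ (Fin (k + 1)) ≃L[ℝ] V :=
    ContinuousLinearEquiv.ofFinrankEq (by simp [hk])
  let s : Set (EuclideanSpace ℝ (Fin (k + 1))) := {u | x + L u ∈ C}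
  have hsc : Convex ℝ s := by
    intro v hv w hw α β hα hβ hαβ
    have := h.convex hv hw hα hβ hαβ
    simp only [s, mem_ofPred_eq, Submodule.coe_add, Submodule.coe_smul, map_add, map_smul]
    convert this using 1
    rw [smul_add, smul_add]
    conv_lhs => rw [← one_smul ℝ x, ← hαβ, add_smul]
    abel
  have hcl : IsClosed s := h.compact.isClosed.preimage (by fun_prop)
  have hint : ∀ u, u ∈ interior s ↔ x + L u ∈ ri V C := by
    intro u
    constructor
    · intro hu
      rw [hρ.lt _ (L u).2]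
      by_contra hc
      push Not at hc
      have h1 : Tendsto (fun t : ℝ => t • u) (𝓝[>] 1) (𝓝 u) := by
        have : Continuous fun t : ℝ => t • u := by fun_prop
        simpa using (this.tendsto 1).mono_left nhdsWithin_le_nhds
      obtain ⟨t, ht1, ht2⟩ := ((h1.eventually (mem_interior_iff_mem_nhds.1 hu)).and
        self_mem_nhdsWithin).exists
      have ht2 : 1 < t := ht2
      have ht1 : x + L (t • u) ∈ C := ht1
      rw [hρ.le _ (L _).2, map_smul, Submodule.coe_smul, hρ.hom _ (by linarith)] at ht1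
      nlinarith
    · intro hu
      rw [hρ.lt _ (L u).2] at hu
      have := hρ.cont
      rw [mem_interior_iff_mem_nhds]
      filter_upwards [(isOpen_lt (f := fun u => ρ (L u)) (by fun_prop) continuous_const).mem_nhds hu]
        with w hw
      exact (hρ.le _ (L w).2).2 (le_of_lt hw)
  have hb : Bornology.IsBounded s := by
    obtain ⟨c, hc, hc'⟩ := hρ.lower
    obtain ⟨M, hM, hM'⟩ := L.symm.toContinuousLinearMap.bound
    refine (isBounded_iff_forall_norm_le).2 ⟨M * c⁻¹, fun u hu => ?_⟩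
    have h1 := (hc' _).trans ((hρ.le _ (L u).2).1 hu)
    have h2 := hM' (L u)
    simp only [ContinuousLinearEquiv.coe_coe, ContinuousLinearEquiv.symm_apply_apply] at h2
    refine h2.trans ?_
    gcongr
    rw [← one_div, le_div_iff₀ hc, mul_comm]
    exact h1
  obtain ⟨g, -, g2, g3⟩ := exists_homeomorph_image_interior_closure_frontier_eq_unitBall hsc
    ⟨0, (hint 0).2 (by simpa using hx)⟩ hb
  rw [hcl.closure_eq] at g2
  rw [hcl.frontier_eq] at g3
  refine ⟨fun u => x + L (g.symm u.1), by fun_prop, ?_, ?_, ?_⟩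
  · intro u v huv
    simp only [add_right_inj, SetLike.coe_eq_coe, EmbeddingLike.apply_eq_iff_eq] at huv
    exact Subtype.ext huv
  · ext y
    constructor
    · rintro ⟨u, hu, rfl⟩
      have : u.1 ∈ g '' (s \ interior s) := by rw [g3]; simpa using hu
      obtain ⟨w, hw, hw'⟩ := this
      simp only [← hw', Homeomorph.symm_apply_apply]
      exact ⟨hw.1, fun hc => hw.2 ((hint w).2 hc)⟩
    · intro hy
      let w := L.symm ⟨y - x, h.sub_mem hy.1 (ri_subset hx)⟩
      have hw : x + L w = y := by simp [w]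
      have : g w ∈ sphere 0 1 := by
        rw [← g3]
        exact ⟨w, ⟨by simpa [s, hw] using hy.1, fun hc => hy.2 (hw ▸ (hint w).1 hc)⟩, rfl⟩
      exact ⟨⟨g w, sphere_subset_closedBall this⟩, by simpa using this, by simpa using hw⟩
  · rintro _ ⟨u, rfl⟩
    have : u.1 ∈ g '' s := by rw [g2]; exact u.2
    obtain ⟨w, hw, hw'⟩ := this
    simp only [← hw', Homeomorph.symm_apply_apply]
    exact hw

end Pool.Agent.MP_5230e1_gt

end

-- part MP_5230e1_gt.Move
section

/-!
The basic move: shrinking one convex component inside its own convex body.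
-/

set_option autoImplicit false

namespace Pool.Agent.MP_5230e1_gt

open Set Filter Topology Metric

variable {E : Type*} [NormedAddCommGroup E] [InnerProductSpace ℝ E] [FiniteDimensional ℝ E]
variable {ι : Type*} {a : E} {V : Submodule ℝ E} {C C' : Set E}

theorem exists_move (hC : Body a V C) (hC' : Body a V C') (hsub : C' ⊆ C) {X : Set E}
    (hX : IsClosed X) (hXC : ∀ y ∈ X, y ∈ C → y ∈ ri V C') (F : ι → Set E) :
    ∃ h : E → E, AmbientIsotopic F (fun i => h '' F i) ∧ (∀ y ∈ X, h y = y) ∧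
      h '' bd V C = bd V C' := by
  obtain ⟨x, hx'⟩ := hC'.ne
  have hx := ri_mono hsub hx'
  obtain ⟨ρ, hρ⟩ := hC.exists_gauge hx
  obtain ⟨ρ', hρ'⟩ := hC'.exists_gauge hx'
  have c1 := hρ.cont
  have c2 := hρ'.cont
  let ρ2 : E → ℝ := fun q => max (ρ q) (ρ' q)
  have c3 : Continuous ρ2 := c1.max c2
  have hρ2 : ∀ q ∈ V, ρ2 q = ρ' q := by
    intro q hq
    apply max_eq_right
    by_cases hq0 : q = 0
    · rw [hq0, hρ.zero, hρ'.zero]
    · have h1 := hρ'.pos hq0
      have h2 := hsub (hρ'.normalize hq hq0).1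
      rw [hρ.le _ (V.smul_mem _ hq), hρ.hom _ (by positivity), inv_mul_le_iff₀ h1] at h2
      linarith
  have hρ2p : ∀ q, q ≠ 0 → 0 < ρ2 q := fun q hq => (hρ.pos hq).trans_le (le_max_left _ _)
  have hρ2h : ∀ t : ℝ, 0 ≤ t → ∀ q, ρ2 (t • q) = t * ρ2 q := by
    intro t ht q
    simp only [ρ2, hρ.hom t ht, hρ'.hom t ht, mul_max_of_nonneg _ _ ht]
  let d : E → ℝ := fun q => ‖q - V.starProjection q‖
  have c4 : Continuous d := by fun_prop
  have hd0 : ∀ q, 0 ≤ d q := fun q => norm_nonneg _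
  have hdV : ∀ q, d q = 0 ↔ q ∈ V := by
    intro q
    simp only [d, norm_eq_zero, sub_eq_zero]
    rw [eq_comm, Submodule.starProjection_eq_self_iff]
  have hdh : ∀ t : ℝ, 0 ≤ t → ∀ q, d (t • q) = t * d q := by
    intro t ht q
    simp only [d, map_smul, ← smul_sub, norm_smul, Real.norm_eq_abs, abs_of_nonneg ht]
  obtain ⟨c, hc, hcρ⟩ := hρ.lower
  have hK : IsCompact (X ∩ {y | ρ (y - x) ≤ 2}) := by
    refine Metric.isCompact_of_isClosed_isBounded
      (hX.inter (isClosed_le (by fun_prop) continuous_const)) ?_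
    refine (isBounded_closedBall (x := x) (r := 2 / c)).subset fun y hy => ?_
    rw [mem_closedBall, dist_eq_norm, le_div_iff₀ hc, mul_comm]
    exact (hcρ _).trans hy.2
  obtain ⟨κ, hκ, hκ'⟩ := hK.exists_forall_le'
    (f := fun y => max (d (y - x)) (max (ρ (y - x) - 1) (1 - ρ2 (y - x)))) (a := 0)
    (by fun_prop) (by
      intro y hy
      by_contra hcon
      simp only [not_lt, max_le_iff] at hcon
      have h1 := (hdV _).1 (le_antisymm hcon.1 (hd0 _))
      have h2 := hXC y hy.1 ((hρ.le' h1).2 (by linarith [hcon.2.1]))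
      have h3 := (hρ'.lt' h1).1 h2
      rw [hρ2 _ h1] at hcon
      linarith [hcon.2.2])
  obtain ⟨η, hη, hη1, hη2, hη3⟩ : ∃ η > 0, η ≤ Real.log 2 ∧ η ≤ κ / 2 ∧ η ≤ Real.log (1 + κ) :=
    ⟨min (Real.log 2) (min (κ / 2) (Real.log (1 + κ))),
      lt_min (Real.log_pos (by norm_num)) (lt_min (by linarith) (Real.log_pos (by linarith))),
      min_le_left _ _, (min_le_right _ _).trans (min_le_left _ _),
      (min_le_right _ _).trans (min_le_right _ _)⟩
  let D : E → ℝ := fun q => Real.log (ρ2 q) - Real.log (ρ q)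
  let lam : E → ℝ := fun q => max 0 (1 - d q / (η * ρ q))
  let tent : E → ℝ := fun q =>
    max 0 (min (1 - Real.log (ρ q) / η) ((Real.log (ρ2 q) + η) / (D q + η)))
  have hD0 : ∀ q, 0 ≤ D q := by
    intro q
    by_cases hq : q = 0
    · simp [D, ρ2, hq, hρ.zero, hρ'.zero]
    · exact sub_nonneg.2 (Real.log_le_log (hρ.pos hq) (le_max_left _ _))
  obtain ⟨M, hM⟩ : ∃ M, ∀ q, D q ≤ M := by
    obtain ⟨c1, hc1, h1⟩ := hρ.upper
    obtain ⟨c2, hc2, h2⟩ := hρ'.upper
    refine ⟨max 0 (Real.log (max c1 c2 / c)), fun q => ?_⟩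
    by_cases hq : q = 0
    · simp [D, ρ2, hq, hρ.zero, hρ'.zero]
    · refine le_trans ?_ (le_max_right _ _)
      have hq' := norm_pos_iff.2 hq
      have h3 : ρ2 q ≤ max c1 c2 * ‖q‖ :=
        max_le ((h1 q).trans (by gcongr; exact le_max_left _ _))
          ((h2 q).trans (by gcongr; exact le_max_right _ _))
      simp only [D]
      rw [← Real.log_div (hρ2p q hq).ne' (hρ.pos hq).ne']
      refine Real.log_le_log (div_pos (hρ2p q hq) (hρ.pos hq)) ?_
      rw [div_le_div_iff₀ (hρ.pos hq) hc]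
      have h4 : 0 < max c1 c2 := lt_max_of_lt_left hc1
      calc ρ2 q * c ≤ max c1 c2 * ‖q‖ * c := by gcongr
        _ = max c1 c2 * (c * ‖q‖) := by ring
        _ ≤ _ := by gcongr; exact hcρ q
  have hl0 : ∀ q, 0 ≤ lam q := fun q => le_max_left _ _
  have hl1 : ∀ q, lam q ≤ 1 := fun q => max_le zero_le_one (by
    have := hd0 q
    have := hρ.nonneg q
    have : 0 ≤ d q / (η * ρ q) := by positivity
    linarith)
  have ht0 : ∀ q, 0 ≤ tent q := fun q => le_max_left _ _
  have ht1 : ∀ q, tent q ≤ 1 := fun q => max_le zero_le_one (by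
    rcases le_total 0 (Real.log (ρ q)) with h | h
    · refine (min_le_left _ _).trans ?_
      have : 0 ≤ Real.log (ρ q) / η := by positivity
      linarith
    · refine (min_le_right _ _).trans ?_
      rw [div_le_one (by linarith [hD0 q])]
      simp only [D]; linarith)
  let Ψ : E → ℝ := fun q => -(lam q * D q * tent q)
  have hbd : ∀ q ∈ V, ρ q = 1 → Real.exp (Ψ q) • q = (ρ' q)⁻¹ • q := by
    intro q hq h1
    have hq0 : q ≠ 0 := by intro h; rw [h, hρ.zero] at h1; linarith
    have e1 : lam q = 1 := by simp [lam, (hdV q).2 hq]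
    have e2 : D q = Real.log (ρ' q) := by simp [D, h1, hρ2 q hq]
    have e3 : tent q = 1 := by
      have := hD0 q
      simp only [tent, h1, Real.log_one, hρ2 q hq, ← e2]
      rw [div_self (by linarith)]; simp
    simp only [Ψ, e1, e2, e3, one_mul, mul_one]
    rw [Real.exp_neg, Real.exp_log (hρ'.pos hq0)]
  refine ⟨fun y => x + Real.exp (Ψ (y - x)) • (y - x), isotopic_radial x Ψ ?_ M ?_ ?_ F, ?_, ?_⟩
  · have l1 : ContinuousOn (fun q => Real.log (ρ q)) {0}ᶜ :=
      c1.continuousOn.log fun q hq => (hρ.pos hq).ne'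
    have l2 : ContinuousOn (fun q => Real.log (ρ2 q)) {0}ᶜ :=
      c3.continuousOn.log fun q hq => (hρ2p q hq).ne'
    have l3 : ContinuousOn D {0}ᶜ := l2.sub l1
    have l4 : ContinuousOn lam {0}ᶜ :=
      continuousOn_const.sup (continuousOn_const.sub (c4.continuousOn.div
        (continuousOn_const.mul c1.continuousOn) fun q hq => (mul_pos hη (hρ.pos hq)).ne'))
    have l5 : ContinuousOn tent {0}ᶜ :=
      continuousOn_const.sup ((continuousOn_const.sub (l1.div_const η)).inf
        ((l2.add continuousOn_const).div (l3.add continuousOn_const)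
          fun q _ => by linarith [hD0 q]))
    exact ((l4.mul l3).mul l5).neg
  · intro q
    have h1 := hl0 q
    have h2 := hD0 q
    have h3 := ht0 q
    simp only [Ψ]
    rw [abs_neg, abs_of_nonneg (by positivity)]
    calc lam q * D q * tent q ≤ 1 * D q * 1 := by gcongr; exacts [hl1 q, ht1 q]
      _ ≤ M := by simpa using hM q
  · intro q hq τ hτ
    have he := Real.exp_pos τ
    have e1 : Real.log (ρ (Real.exp τ • q)) = Real.log (ρ q) + τ := by
      rw [hρ.hom _ he.le, Real.log_mul he.ne' (hρ.pos hq).ne', Real.log_exp, add_comm]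
    have e2 : Real.log (ρ2 (Real.exp τ • q)) = Real.log (ρ2 q) + τ := by
      rw [hρ2h _ he.le, Real.log_mul he.ne' (hρ2p q hq).ne', Real.log_exp, add_comm]
    have e3 : D (Real.exp τ • q) = D q := by simp only [D, e1, e2]; ring
    have e4 : lam (Real.exp τ • q) = lam q := by
      simp only [lam, hdh _ he.le, hρ.hom _ he.le]
      congr 2
      have := hρ.pos hq
      field_simp
    have hDη : 0 < D q + η := by linarith [hD0 q]
    have e5 : tent (Real.exp τ • q) ≤ tent q + τ / (D q + η) := by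
      have h0 : 0 < τ / (D q + η) := by positivity
      simp only [tent, e1, e2, e3]
      refine max_le (by positivity) ?_
      rcases le_total (1 - Real.log (ρ q) / η) ((Real.log (ρ2 q) + η) / (D q + η)) with h | h
      · refine (min_le_left _ _).trans ?_
        rw [min_eq_left h, add_div]
        have : 0 < τ / η := by positivity
        linarith [le_max_right 0 (1 - Real.log (ρ q) / η)]
      · refine (min_le_right _ _).trans ?_
        rw [min_eq_right h, add_right_comm, add_div _ τ]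
        linarith [le_max_right 0 ((Real.log (ρ2 q) + η) / (D q + η))]
    simp only [Ψ, e3, e4]
    have h1 := hl0 q
    have h2 := hD0 q
    have h3 : lam q * D q * tent (Real.exp τ • q) ≤ lam q * D q * (tent q + τ / (D q + η)) := by
      gcongr
    have h4 : lam q * D q * (τ / (D q + η)) < τ := by
      calc lam q * D q * (τ / (D q + η)) ≤ 1 * D q * (τ / (D q + η)) := by gcongr; exact hl1 q
        _ < τ := by
          rw [one_mul, ← mul_div_assoc, div_lt_iff₀ hDη]; nlinarith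
    linarith
  · intro y hy
    by_cases hq : y - x = 0
    · simp [hq, sub_eq_zero.1 hq]
    suffices h : lam (y - x) = 0 ∨ tent (y - x) = 0 by
      rcases h with h | h <;> simp [Ψ, h]
    have hp := hρ.pos hq
    have ta : η ≤ Real.log (ρ (y - x)) → tent (y - x) = 0 := fun h =>
      max_eq_left ((min_le_left _ _).trans (by
        rw [sub_nonpos, le_div_iff₀ hη]; linarith))
    by_cases h2 : ρ (y - x) ≤ 2
    · have h3 := hκ' y ⟨hy, h2⟩
      simp only [le_max_iff] at h3
      rcases h3 with h3 | h3 | h3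
      · left
        refine max_eq_left ?_
        rw [sub_nonpos, le_div_iff₀ (by positivity)]
        nlinarith
      · exact Or.inr (ta (hη3.trans (Real.log_le_log (by linarith) (by linarith))))
      · right
        refine max_eq_left ((min_le_right _ _).trans ?_)
        have := Real.log_le_sub_one_of_pos (hρ2p _ hq)
        exact div_nonpos_of_nonpos_of_nonneg (by linarith) (by linarith [hD0 (y - x)])
    · exact Or.inr (ta (hη1.trans (Real.log_le_log (by norm_num) (by linarith))))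
  · ext y
    constructor
    · rintro ⟨z, hz, rfl⟩
      have h1 := hC.sub_mem hz.1 (ri_subset hx)
      have h2 := (hρ.eq' h1).1 hz
      have hq0 : z - x ≠ 0 := by intro h; rw [h, hρ.zero] at h2; linarith
      simp only [hbd _ h1 h2]
      exact hρ'.normalize h1 hq0
    · intro hy
      have h1 := hC'.sub_mem hy.1 (ri_subset hx')
      have h2 := (hρ'.eq' h1).1 hy
      have hq0 : y - x ≠ 0 := by intro h; rw [h, hρ'.zero] at h2; linarith
      have h3 := hρ.normalize h1 hq0
      have h4 := hρ.pos hq0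
      refine ⟨_, h3, ?_⟩
      simp only [add_sub_cancel_left]
      rw [hbd _ (V.smul_mem _ h1) ((hρ.eq (V.smul_mem _ h1)).1 h3), hρ'.hom _ (by positivity), h2,
        smul_smul]
      simp [h4.ne']

theorem move [Finite ι] (hC : Body a V C) (hC' : Body a V C') (hsub : C' ⊆ C) {F F' : ι → Set E}
    (hF : ∀ i, IsClosed (F i)) (j : ι) (h1 : F j = bd V C) (h2 : F' j = bd V C')
    (h3 : ∀ i, i ≠ j → F' i = F i) (h4 : ∀ i, i ≠ j → ∀ y ∈ F i, y ∈ C → y ∈ ri V C') :
    AmbientIsotopic F F' := by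
  obtain ⟨h, g1, g2, g3⟩ := exists_move hC hC' hsub (X := ⋃ i : {i // i ≠ j}, F i)
    (isClosed_iUnion_of_finite fun i => hF i) (by
      intro y hy
      obtain ⟨i, hi⟩ := mem_iUnion.1 hy
      exact h4 i i.2 y hi) F
  convert g1 using 1
  funext i
  by_cases hi : i = j
  · rw [hi, h1, h2, g3]
  · rw [h3 i hi, image_congr (g := id) fun y hy => g2 y (mem_iUnion.2 ⟨⟨i, hi⟩, hy⟩), image_id]

/-- simultaneous shrinking -/
theorem shrink_all [Finite ι] {a : ι → E} {V : ι → Submodule ℝ E} {C C' : ι → Set E}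
    (hC : ∀ i, Body (a i) (V i) (C i)) (hC' : ∀ i, Body (a i) (V i) (C' i))
    (hsub : ∀ i, C' i ⊆ C i)
    (h : ∀ i j, i ≠ j → ∀ y ∈ C i, y ∈ C j → y ∈ ri (V i) (C' i) ∨ y ∈ ri (V j) (C' j)) :
    AmbientIsotopic (fun i => bd (V i) (C i)) (fun i => bd (V i) (C' i)) := by
  classical
  have := Fintype.ofFinite ι
  have key : ∀ S : Finset ι, AmbientIsotopic (fun i => bd (V i) (C i))
      (fun i => bd (V i) (if i ∈ S then C' i else C i)) := by
    intro S
    induction S using Finset.induction_on with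
    | empty => simpa using AmbientIsotopic.refl _
    | insert j S hj ih =>
      refine ih.trans (move (hC j) (hC' j) (hsub j) (fun i => ?_) j (by simp [hj]) (by simp)
        (fun i hi => by simp [hi]) fun i hi y hy hy' => ?_)
      · split_ifs
        exacts [(hC' i).bd_closed, (hC i).bd_closed]
      · have h1 : y ∈ C i := by
          have := hy.1
          split_ifs at this
          exacts [hsub i this, this]
        refine (h i j hi y h1 hy').resolve_left fun h2 => hy.2 (ri_mono ?_ h2)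
        split_ifs
        exacts [subset_rfl, hsub i]
  simpa using key Finset.univ

end Pool.Agent.MP_5230e1_gt

end

-- part MP_5230e1_gt.Generic
section

/-!
Small translations put the planes of the components in general position.
-/

set_option autoImplicit false

namespace Pool.Agent.MP_5230e1_gt

open Set Filter Topology Metric

theorem exists_avoid {U : Type*} [NormedAddCommGroup U] [NormedSpace ℝ U] [FiniteDimensional ℝ U]
    {σ : Type*} [Finite σ] (T : σ → Submodule ℝ U) (hT : ∀ s, T s ≠ ⊤) (Z : σ → Set U)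
    (hZ : ∀ s, ∀ w ∈ Z s, ∀ w' ∈ Z s, w - w' ∈ T s) (δ : ℝ) (hδ : 0 < δ) :
    ∃ w : U, ‖w‖ < δ ∧ ∀ s, w ∉ Z s := by
  have := FiniteDimensional.complete ℝ U
  have hb : ∀ s, ∃ b : U, ∀ w ∈ Z s, w - b ∈ T s := by
    intro s
    rcases (Z s).eq_empty_or_nonempty with h | ⟨b, hb⟩
    · exact ⟨0, by simp [h]⟩
    · exact ⟨b, fun w hw => hZ s w hw b hb⟩
  choose b hb using hb
  have hd : Dense (⋂ s, {w | w - b s ∈ T s}ᶜ) := by
    refine dense_iInter_of_isOpen (fun s => ?_) fun s => ?_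
    · exact ((T s).closed_of_finiteDimensional.preimage
        (continuous_id.sub continuous_const)).isOpen_compl
    · rw [← interior_eq_empty_iff_dense_compl, eq_empty_iff_forall_notMem]
      intro p hp
      obtain ⟨v, hv⟩ : ∃ v, v ∉ T s := by
        by_contra hc
        push Not at hc
        exact hT s (Submodule.eq_top_iff'.2 hc)
      have h1 : Tendsto (fun t : ℝ => p + t • v) (𝓝[>] 0) (𝓝 p) := by
        have : Continuous fun t : ℝ => p + t • v := by fun_prop
        simpa using (this.tendsto 0).mono_left nhdsWithin_le_nhds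
      obtain ⟨t, ht1, ht2⟩ := ((h1.eventually (mem_interior_iff_mem_nhds.1 hp)).and
        self_mem_nhdsWithin).exists
      have hp' : p ∈ {w | w - b s ∈ T s} := interior_subset hp
      have h2 := (T s).sub_mem ht1 hp'
      have h3 : p + t • v - b s - (p - b s) = t • v := by abel
      rw [h3] at h2
      exact hv (((T s).smul_mem_iff (ne_of_gt ht2)).1 h2)
  obtain ⟨w, hw1, hw2⟩ := hd.exists_mem_open isOpen_ball (nonempty_ball (x := 0) |>.2 hδ)
  exact ⟨w, by simpa using hw2, fun s hs => (mem_iInter.1 hw1 s) (hb s w hs)⟩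

variable {E : Type*} [NormedAddCommGroup E] [InnerProductSpace ℝ E] [FiniteDimensional ℝ E]
variable {ι : Type*}

/-- general position: planes with a common point are transversal -/
def Generic (a : ι → E) (V : ι → Submodule ℝ E) : Prop :=
  ∀ S : Set ι, (∃ x, ∀ i ∈ S, x - a i ∈ V i) → ∀ w : ι → E, ∃ x, ∀ i ∈ S, x - w i ∈ V i

omit [FiniteDimensional ℝ E] in
theorem ri_translate (V : Submodule ℝ E) (C : Set E) (w : E) :
    ri V ((fun y => y + w) '' C) = (fun y => y + w) '' ri V C := by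
  ext y
  simp only [image_add_right, mem_preimage, ri, mem_ofPred_eq]
  simp only [add_right_comm]

omit [FiniteDimensional ℝ E] in
theorem bd_translate (V : Submodule ℝ E) (C : Set E) (w : E) :
    bd V ((fun y => y + w) '' C) = (fun y => y + w) '' bd V C := by
  rw [bd, bd, ri_translate, image_sdiff (add_left_injective w)]

omit [FiniteDimensional ℝ E] in
theorem Body.translate {a : E} {V : Submodule ℝ E} {C : Set E} (h : Body a V C) (w : E) :
    Body (a + w) V ((fun y => y + w) '' C) := by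
  refine ⟨h.compact.image (by fun_prop), ?_, ?_, ?_⟩
  · simpa [add_comm] using h.convex.translate w
  · rintro _ ⟨y, hy, rfl⟩
    simpa using h.sub y hy
  · rw [ri_translate]; exact h.ne.image _

theorem exists_generic [Finite ι] {a : ι → E} {V : ι → Submodule ℝ E} {C : ι → Set E}
    (hC : ∀ i, Body (a i) (V i) (C i)) (hV : ∀ i, V i ≠ ⊥)
    (hd : ∀ i j, i ≠ j → Disjoint (bd (V i) (C i)) (bd (V j) (C j))) :
    ∃ (a' : ι → E) (C' : ι → Set E), (∀ i, Body (a' i) (V i) (C' i)) ∧ Generic a' V ∧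
      AmbientIsotopic (fun i => bd (V i) (C i)) (fun i => bd (V i) (C' i)) := by
  classical
  have := Fintype.ofFinite ι
  let F : ι → Set E := fun i => bd (V i) (C i)
  obtain ⟨δ, hδ', hδ⟩ : ∃ δ, (∀ i j, i ≠ j → ∀ y ∈ F j, δ ≤ infDist y (F i)) ∧ 0 < δ := by
    refine (Eventually.and (f := 𝓝[>] (0 : ℝ)) ?_ self_mem_nhdsWithin).exists
    refine eventually_all.2 fun i => eventually_all.2 fun j => ?_
    by_cases hij : i = j
    · simp [hij]
    obtain ⟨κ, hκ, h⟩ := (hC j).bd_compact.exists_forall_le' (f := fun y => infDist y (F i)) (a := 0)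
      (continuous_infDist_pt _).continuousOn fun y hy =>
        ((hC i).bd_closed.notMem_iff_infDist_pos ((hC i).bd_nonempty (hV i))).1
          (disjoint_right.1 (hd i j hij) hy)
    filter_upwards [nhdsWithin_le_nhds (Iic_mem_nhds hκ)] with δ hδ _ y hy
    exact le_trans hδ (h y hy)
  let T : Set ι → Submodule ℝ (ι → E) := fun S =>
    { carrier := {w | ∃ x, ∀ i ∈ S, x - w i ∈ V i}
      add_mem' := by
        rintro w w' ⟨x, hx⟩ ⟨x', hx'⟩
        refine ⟨x + x', fun i hi => ?_⟩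
        have := (V i).add_mem (hx i hi) (hx' i hi)
        simpa [add_sub_add_comm] using this
      zero_mem' := ⟨0, by simp⟩
      smul_mem' := by
        rintro c w ⟨x, hx⟩
        refine ⟨c • x, fun i hi => ?_⟩
        have := (V i).smul_mem c (hx i hi)
        simpa [smul_sub] using this }
  obtain ⟨w, hw1, hw2⟩ := exists_avoid (σ := {S // T S ≠ ⊤}) (fun S => T S) (fun S => S.2)
    (fun S => {w | a + w ∈ T S}) (fun S w hw w' hw' => by simpa using (T S).sub_mem hw hw')
    (δ / (2 * (Fintype.card ι + 1))) (by positivity)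
  refine ⟨a + w, fun i => (fun y => y + w i) '' C i, fun i => (hC i).translate (w i), ?_, ?_⟩
  · intro S hS v
    have : T S = ⊤ := by
      by_contra hc
      exact hw2 ⟨S, hc⟩ hS
    exact (this ▸ Submodule.mem_top : v ∈ T S)
  · let lam : ι → E → ℝ := fun i y => max 0 (1 - infDist y (F i) / δ)
    have key := isotopic_lipschitz (fun y => ∑ i, lam i y • w i) ?_ F
    · convert key using 1
      funext j
      rw [bd_translate]
      refine image_congr fun y hy => ?_
      rw [Finset.sum_eq_single j]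
      · simp [lam, infDist_zero_of_mem (show y ∈ F j from hy)]
      · intro i _ hi
        have : lam i y = 0 := max_eq_left (by
          rw [sub_nonpos, le_div_iff₀ hδ, one_mul]; exact hδ' i j hi y hy)
        simp [this]
      · simp
    · intro y z
      rw [← Finset.sum_sub_distrib]
      refine (norm_sum_le _ _).trans ?_
      have h1 : ∀ i, ‖lam i y • w i - lam i z • w i‖ ≤ ‖y - z‖ / (2 * (Fintype.card ι + 1)) := by
        intro i
        rw [← sub_smul, norm_smul, Real.norm_eq_abs]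
        have h2 : |lam i y - lam i z| ≤ ‖y - z‖ / δ := by
          refine (abs_max_sub_max_le_max _ _ _ _).trans (max_le (by simp; positivity) ?_)
          have h3 : 1 - infDist y (F i) / δ - (1 - infDist z (F i) / δ) =
              (infDist z (F i) - infDist y (F i)) / δ := by ring
          rw [h3, abs_div, abs_of_pos hδ]
          gcongr
          rw [← dist_eq_norm, abs_sub_comm]
          exact (lipschitz_infDist_pt (F i)).dist_le_mul y z |>.trans (by simp)
        have h3 : ‖w i‖ ≤ δ / (2 * (Fintype.card ι + 1)) := (norm_le_pi_norm w i).trans hw1.le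
        calc _ ≤ ‖y - z‖ / δ * (δ / (2 * (Fintype.card ι + 1))) := by gcongr
          _ = _ := by field_simp
      refine (Finset.sum_le_sum fun i _ => h1 i).trans ?_
      rw [Finset.sum_const, Finset.card_univ, nsmul_eq_mul, ← mul_div_assoc,
        div_le_iff₀ (by positivity)]
      have := norm_nonneg (y - z)
      nlinarith

/-- a body is not covered by finitely many planes not containing its direction -/
theorem Body.exists_ri_avoid [Finite ι] {a : E} {V : Submodule ℝ E} {C : Set E} (h : Body a V C)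
    (b : ι → E) (W : ι → Submodule ℝ E) (hW : ∀ i, ¬ V ≤ W i) :
    ∃ y ∈ ri V C, ∀ i, y - b i ∉ W i := by
  obtain ⟨x, hx⟩ := h.ne
  obtain ⟨ρ, hρ⟩ := h.exists_gauge hx
  obtain ⟨c, hc, hc'⟩ := hρ.upper
  obtain ⟨v, hv1, hv2⟩ := exists_avoid (U := V) (fun i => (W i).comap V.subtype)
    (fun i hi => hW i (by simpa using hi)) (fun i => {v | x + v - b i ∈ W i})
    (fun i w hw w' hw' => by simpa using (W i).sub_mem hw hw') c⁻¹ (by positivity)
  refine ⟨x + v, (hρ.lt _ v.2).2 ((hc' _).trans_lt ?_), hv2⟩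
  rw [← lt_inv_mul_iff₀ hc]
  simpa using hv1

end Pool.Agent.MP_5230e1_gt

end

-- part MP_5230e1_gt.Obstruct
section

/-!
Topological obstructions: a convex sphere of codimension one, a linked pair of convex spheres and
a Borromean triple of convex spheres do not bound balls missing the other components.
-/

set_option autoImplicit false

namespace Pool.Agent.MP_5230e1_gt

open Set Filter Topology Metric Pool.Agent.Lib.CupDegree

variable {E : Type*} [NormedAddCommGroup E] [InnerProductSpace ℝ E] [FiniteDimensional ℝ E]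

/-- `bd V C` bounds an embedded ball missing `X` -/
def Spans (V : Submodule ℝ E) (C X : Set E) : Prop :=
  ∃ (k : ℕ) (e : closedBall (0 : EuclideanSpace ℝ (Fin k)) 1 → E), Continuous e ∧
    Function.Injective e ∧ e '' {u | ‖u.1‖ = 1} = bd V C ∧ Disjoint (range e) X

theorem exists_fill {x : E} {V : Submodule ℝ E} {C X : Set E} {ρ : E → ℝ} (hρ : IsGauge V C x ρ)
    (h : Spans V C X) :
    ∃ Φ : E → E, Continuous Φ ∧ (∀ q ∈ V, ρ q ≤ 1 → Φ q = x + q) ∧ (∀ q ∈ V, 1 ≤ ρ q → Φ q ∉ X) ∧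
      ∃ R c, ∀ q ∈ V, R ≤ ‖q‖ → Φ q = c := by
  classical
  obtain ⟨k, e, e1, e2, e3, e4⟩ := h
  have : Nonempty (closedBall (0 : EuclideanSpace ℝ (Fin k)) 1) := ⟨⟨0, by simp⟩⟩
  let σ := Function.invFun e
  have hσ : ∀ y ∈ range e, e (σ y) = y := fun y hy => Function.invFun_eq hy
  have hσc : ContinuousOn σ (range e) := by
    rw [(e1.isClosedEmbedding e2).isInducing.continuousOn_iff]
    exact continuousOn_id.congr fun y hy => hσ y hy
  have c1 := hρ.cont
  let m : V → ℝ := fun v => min 1 (max 0 (2 - ρ v))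
  have hm : Continuous m := by fun_prop
  let p : V → E := fun v => x + (ρ v)⁻¹ • (v : E)
  have hp : ∀ v : V, 1 ≤ ρ v → p v ∈ range e := by
    intro v hv
    have : (v : E) ≠ 0 := by intro h; rw [h, hρ.zero] at hv; linarith
    have h1 := hρ.normalize v.2 this
    rw [← e3] at h1
    exact image_subset_range _ _ h1
  let w : V → closedBall (0 : EuclideanSpace ℝ (Fin k)) 1 := fun v => ⟨m v • (σ (p v)).1, by
    have h1 : 0 ≤ m v := le_min zero_le_one (le_max_left _ _)
    have h2 : m v ≤ 1 := min_le_left _ _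
    have h3 := (σ (p v)).2
    rw [mem_closedBall_zero_iff] at h3 ⊢
    rw [norm_smul, Real.norm_eq_abs, abs_of_nonneg h1]
    exact mul_le_one₀ h2 (norm_nonneg _) h3⟩
  let Φ : V → E := fun v => if ρ v ≤ 1 then x + v else e (w v)
  have hΦ : Continuous Φ := by
    refine continuous_if_le (by fun_prop) continuous_const (by fun_prop) ?_ ?_
    · refine e1.comp_continuousOn ?_
      rw [IsInducing.subtypeVal.continuousOn_iff]
      refine hm.continuousOn.smul (continuous_subtype_val.comp_continuousOn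
        (hσc.comp ?_ fun v hv => hp v hv))
      refine continuousOn_const.add (ContinuousOn.smul ?_ (by fun_prop))
      exact ContinuousOn.inv₀ (by fun_prop) fun v hv => by
        have : 1 ≤ ρ v := hv
        linarith
    · intro v hv
      have h1 : w v = σ (p v) := Subtype.ext (by simp [w, m, hv]; norm_num)
      rw [h1, hσ _ (hp v hv.ge)]
      simp [p, hv]
  have hπ : ∀ q (hq : q ∈ V), V.orthogonalProjectionOnto q = ⟨q, hq⟩ := fun q hq =>
    V.orthogonalProjectionOnto_mem_subspace_eq_self ⟨q, hq⟩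
  obtain ⟨c, hc, hc'⟩ := hρ.lower
  refine ⟨fun q => Φ (V.orthogonalProjectionOnto q), by fun_prop, fun q hq h => ?_,
    fun q hq h => ?_, 2 / c, e ⟨0, by simp⟩, fun q hq h => ?_⟩
  · simp [hπ q hq, Φ, h]
  · simp only [hπ q hq, Φ]
    refine disjoint_left.1 e4 ?_
    split_ifs with h1
    · have := hp ⟨q, hq⟩ h
      simpa [p, le_antisymm h1 h] using this
    · exact mem_range_self _
  · have h1 : 2 ≤ ρ q := by
      rw [div_le_iff₀ hc, mul_comm] at h
      exact h.trans (hc' q)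
    simp only [hπ q hq, Φ]
    rw [if_neg (by linarith)]
    congr 1
    refine Subtype.ext ?_
    have : m ⟨q, hq⟩ = 0 := by
      simp only [m]; rw [max_eq_left (by linarith)]; simp
    simp [w, this]

theorem not_spans_top [Nontrivial E] {a y : E} {C X : Set E} (hC : Body a ⊤ C) (hy : y ∈ ri ⊤ C)
    (hX : y ∈ X) (h : Spans ⊤ C X) : False := by
  obtain ⟨ρ, hρ⟩ := hC.exists_gauge hy
  obtain ⟨Φ, h1, h2, h3, R, c, h4⟩ := exists_fill hρ h
  refine second_zero (fun q => Φ q - y) (by fun_prop) ?_ ?_ R (c - y) ?_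
  · filter_upwards [(isOpen_lt hρ.cont continuous_const).mem_nhds
      (show ρ 0 < 1 by rw [hρ.zero]; norm_num)] with q hq
    rw [h2 q trivial (le_of_lt hq)]; simp
  · intro q hq
    rcases le_total (ρ q) 1 with h5 | h5
    · simpa [h2 q trivial h5] using hq
    · exact absurd (sub_eq_zero.1 hq ▸ hX) (h3 q trivial h5)
  · intro q hq
    rw [h4 q trivial hq]

theorem exists_bound {U : Type*} [NormedAddCommGroup U] [NormedSpace ℝ U] [FiniteDimensional ℝ U]
    (L : U →ₗ[ℝ] E) (h : ∀ u, L u = 0 → u = 0) : ∃ K > 0, ∀ u, ‖u‖ ≤ K * ‖L u‖ := by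
  obtain ⟨K, hK, hL⟩ := L.exists_antilipschitzWith (LinearMap.ker_eq_bot'.2 h)
  exact ⟨K, hK, fun u => ZeroHomClass.bound_of_antilipschitz L hL u⟩

theorem not_spans_linked {a1 a2 x y : E} {V1 V2 : Submodule ℝ E} {C1 C2 : Set E}
    (h1 : Body a1 V1 C1) (h2 : Body a2 V2 C2) (hd : Disjoint (bd V1 C1) (bd V2 C2))
    (hV : V1 ⊔ V2 = ⊤) (hx : x ∈ bd V1 C1) (hx' : x ∈ C2) (hy : y ∈ bd V2 C2) (hy' : y ∈ C1)
    (h : Spans V1 C1 (bd V2 C2)) : False := by
  have hxr : x ∈ ri V2 C2 := by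
    by_contra hc; exact disjoint_left.1 hd hx ⟨hx', hc⟩
  have hyr : y ∈ ri V1 C1 := by
    by_contra hc; exact disjoint_left.1 hd ⟨hy', hc⟩ hy
  obtain ⟨ρ1, hρ1⟩ := h1.exists_gauge hyr
  obtain ⟨ρ2, hρ2⟩ := h2.exists_gauge hxr
  obtain ⟨Φ, p1, p2, p3, R, c, p4⟩ := exists_fill hρ1 h
  obtain ⟨P, hP1, hP2⟩ := IsModularLattice.exists_inf_eq_and_sup_eq (bot_le (a := V1 ⊓ V2))
    (inf_le_left (a := V1) (b := V2))
  have hPV : P ≤ V1 := hP2 ▸ le_sup_right
  have hc : IsCompl P V2 := by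
    constructor
    · rw [disjoint_iff, eq_bot_iff, ← hP1]
      exact le_inf (le_inf (inf_le_left.trans hPV) inf_le_right) inf_le_left
    · rw [codisjoint_iff, eq_top_iff, ← hV, ← hP2]
      exact sup_le (sup_le (inf_le_right.trans le_sup_right) le_sup_left) le_sup_right
  set d := y - x with hd'
  have hd1 : d ∈ V1 := h1.sub_mem hy' hx.1
  have hd2 : d ∈ V2 := h2.sub_mem hy.1 hx'
  have e2 : ρ2 d = 1 := (hρ2.eq' hd2).1 hy
  have e1 : ρ1 (-d) = 1 := by
    rw [hd', neg_sub]; exact (hρ1.eq' (h1.sub_mem hx.1 hy')).1 hx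
  have hd0 : d ≠ 0 := by intro h; rw [h, hρ2.zero] at e2; linarith
  let π := P.projectionOnto V2 hc
  have cπ : Continuous π := π.continuous_of_finiteDimensional
  let L : (ℝ × P) →ₗ[ℝ] E := (LinearMap.toSpanSingleton ℝ E d).coprod P.subtype
  have hL : ∀ u : ℝ × P, L u = u.1 • d + u.2 := fun u => rfl
  have cL : Continuous L := L.continuous_of_finiteDimensional
  have hLV : ∀ u, L u ∈ V1 := fun u => V1.add_mem (V1.smul_mem _ hd1) (hPV u.2.2)
  have hπ : ∀ (t : ℝ) (p : P), π (t • d + p) = p := by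
    intro t p
    rw [map_add, Submodule.projectionOnto_apply_of_mem_right hc (V2.smul_mem _ hd2),
      Submodule.projectionOnto_apply_left, zero_add]
  obtain ⟨K, hK, hK'⟩ := exists_bound L (by
    rintro ⟨t, p⟩ hu
    have h3 := hπ t p
    rw [hL] at hu
    rw [hu, map_zero] at h3
    subst h3
    simpa [hd0] using hu)
  have c2 := hρ2.cont
  have key : ∀ u : ℝ × P, ρ1 (L u) ≤ 1 → Φ (L u) - x = (1 + u.1) • d + u.2 := by
    intro u hu
    rw [p2 _ (hLV u) hu, hL, add_smul, one_smul, hd']; abel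
  refine second_zero (U := ℝ × P)
    (fun u => (ρ2 (Φ (L u) - x - π (Φ (L u) - x)) - 1, π (Φ (L u) - x))) (by fun_prop) ?_ ?_
    (K * R) (ρ2 (c - x - π (c - x)) - 1, π (c - x)) ?_
  · have n1 : ∀ᶠ u : ℝ × P in 𝓝 0, ρ1 (L u) < 1 :=
      (isOpen_lt (hρ1.cont.comp cL) continuous_const).mem_nhds (by simp [hρ1.zero])
    have n2 : ∀ᶠ u : ℝ × P in 𝓝 0, -1 < u.1 :=
      (isOpen_lt continuous_const continuous_fst).mem_nhds (by simp)
    filter_upwards [n1, n2] with u n1 n2
    rw [key u n1.le, hπ, add_sub_cancel_right, hρ2.hom _ (by linarith), e2]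
    simp
  · intro u hu
    simp only [Prod.mk_eq_zero] at hu
    obtain ⟨u1, u2⟩ := hu
    rcases le_total (ρ1 (L u)) 1 with h5 | h5
    · rw [key u h5, hπ] at u1 u2
      rw [add_sub_cancel_right] at u1
      rcases le_total 0 (1 + u.1) with h6 | h6
      · rw [hρ2.hom _ h6, e2] at u1
        exact Prod.ext (by simpa using u1) u2
      · exfalso
        have h7 : L u = (-u.1) • (-d) := by rw [hL, u2]; simp
        rw [h7, hρ1.hom _ (by linarith), e1] at h5
        have h8 : 1 + u.1 = 0 := by linarith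
        rw [h8, zero_smul, hρ2.zero] at u1
        linarith
    · exfalso
      rw [u2, Submodule.coe_zero, sub_zero, sub_eq_zero] at u1
      exact p3 _ (hLV u) h5 ((hρ2.eq' ((Submodule.projectionOnto_apply_eq_zero_iff hc).1 u2)).2 u1)
  · intro u hu
    rw [p4 _ (hLV u) (le_of_mul_le_mul_left (hu.trans (hK' u)) hK)]

omit [FiniteDimensional ℝ E] in
theorem gauge_le_gauge {x : E} {V2 V3 : Submodule ℝ E} {C2 C3 : Set E} {ρ2 ρ3 : E → ℝ}
    (hρ2 : IsGauge V2 C2 x ρ2) (hρ3 : IsGauge V3 C3 x ρ3)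
    (h : ∀ y ∈ C2, y - x ∈ V3 → y ∈ ri V3 C3) {q : E} (h2 : q ∈ V2) (h3 : q ∈ V3) :
    ρ3 q ≤ ρ2 q := by
  by_cases hq : q = 0
  · rw [hq, hρ2.zero, hρ3.zero]
  · have h4 := hρ2.pos hq
    have h5 := h _ (hρ2.normalize h2 hq).1 (by simpa using V3.smul_mem _ h3)
    rw [hρ3.lt _ (V3.smul_mem _ h3), hρ3.hom _ (by positivity), inv_mul_lt_iff₀ h4] at h5
    linarith

theorem not_spans_borromean {a1 a2 a3 x : E} {V1 V2 V3 : Submodule ℝ E} {C1 C2 C3 : Set E}
    (h1 : Body a1 V1 C1) (h2 : Body a2 V2 C2) (h3 : Body a3 V3 C3)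
    (hx1 : x ∈ ri V1 C1) (hx2 : x ∈ ri V2 C2) (hx3 : x ∈ ri V3 C3)
    (h12 : ∀ y ∈ C1, y - x ∈ V2 → y ∈ ri V2 C2) (h23 : ∀ y ∈ C2, y - x ∈ V3 → y ∈ ri V3 C3)
    (h31 : ∀ y ∈ C3, y - x ∈ V1 → y ∈ ri V1 C1)
    (c1 : IsCompl (V2 ⊓ V3) V1) (c2 : IsCompl (V3 ⊓ V1) V2) (n1 : V1 ≠ ⊤) (n2 : V2 ≠ ⊤)
    (h : Spans V3 C3 (bd V1 C1 ∪ bd V2 C2)) : False := by
  obtain ⟨ρ1, hρ1⟩ := h1.exists_gauge hx1
  obtain ⟨ρ2, hρ2⟩ := h2.exists_gauge hx2
  obtain ⟨ρ3, hρ3⟩ := h3.exists_gauge hx3
  obtain ⟨Φ, p1, p2, p3, R, c, p4⟩ := exists_fill hρ3 h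
  have : Nontrivial (V2 ⊓ V3 : Submodule ℝ E) := Submodule.nontrivial_iff_ne_bot.2 fun h =>
    n1 (by simpa [h] using c1.sup_eq_top)
  have : Nontrivial (V3 ⊓ V1 : Submodule ℝ E) := Submodule.nontrivial_iff_ne_bot.2 fun h =>
    n2 (by simpa [h] using c2.sup_eq_top)
  let X := (V2 ⊓ V3).projectionOnto V1 c1
  let Y := (V3 ⊓ V1).projectionOnto V2 c2
  have cX : Continuous X := X.continuous_of_finiteDimensional
  have cY : Continuous Y := Y.continuous_of_finiteDimensional
  let L : ((V2 ⊓ V3 : Submodule ℝ E) × (V3 ⊓ V1 : Submodule ℝ E)) →ₗ[ℝ] E :=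
    (V2 ⊓ V3).subtype.coprod (V3 ⊓ V1).subtype
  have hL : ∀ u, L u = u.1 + u.2 := fun u => rfl
  have cL : Continuous L := L.continuous_of_finiteDimensional
  have hLV : ∀ u, L u ∈ V3 := fun u => V3.add_mem u.1.2.2 u.2.2.1
  have hX : ∀ u, X (L u) = u.1 := by
    intro u
    rw [hL, map_add, Submodule.projectionOnto_apply_of_mem_right c1 u.2.2.2,
      Submodule.projectionOnto_apply_left, add_zero]
  have hY : ∀ u, Y (L u) = u.2 := by
    intro u
    rw [hL, map_add, Submodule.projectionOnto_apply_of_mem_right c2 u.1.2.1,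
      Submodule.projectionOnto_apply_left, zero_add]
  obtain ⟨K, hK, hK'⟩ := exists_bound L (by
    intro u hu
    have h4 := hX u
    have h5 := hY u
    rw [hu, map_zero] at h4 h5
    exact Prod.ext h4.symm h5.symm)
  have d1 := hρ1.cont
  have d2 := hρ2.cont
  have d3 := hρ3.cont
  have key : ∀ u, ρ3 (L u) ≤ 1 → Φ (L u) - x = L u := by
    intro u hu
    rw [p2 _ (hLV u) hu, add_sub_cancel_left]
  have n0 : ρ3 (L 0) = 0 := by rw [map_zero, hρ3.zero]
  have k0 : Φ (L 0) - x = 0 := by rw [key 0 (by rw [n0]; norm_num), map_zero]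
  refine triple (fun u => (X (Φ (L u) - x), Y (Φ (L u) - x))) (fun u => ρ1 (Φ (L u) - x) - 1)
    (fun u => 1 - ρ2 (Φ (L u) - x) - 2 * max 0 (1 - ρ3 (L u))) (by fun_prop) (by fun_prop)
    (by fun_prop) ?_ ?_ ?_ ?_ ?_ ?_ (K * R) (Y (c - x)) ?_
  · intro u hu
    have h4 := (Submodule.projectionOnto_apply_eq_zero_iff c1).1 hu
    rw [sub_ne_zero]
    rcases le_total (ρ3 (L u)) 1 with h5 | h5
    · refine ((hρ1.lt' h4).1 (h31 _ ?_ h4)).ne
      rw [p2 _ (hLV u) h5]
      exact (hρ3.le _ (hLV u)).2 h5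
    · exact fun h6 => p3 _ (hLV u) h5 (Or.inl ((hρ1.eq' h4).2 h6))
  · intro u hu
    have h4 := (Submodule.projectionOnto_apply_eq_zero_iff c2).1 hu
    rcases lt_or_ge (ρ3 (L u)) 1 with h5 | h5
    · rw [key u h5.le] at h4 ⊢
      have := gauge_le_gauge hρ2 hρ3 h23 h4 (hLV u)
      rw [max_eq_right (by linarith)]
      linarith
    · rw [max_eq_left (by linarith)]
      exact fun h6 => p3 _ (hLV u) h5 (Or.inr ((hρ2.eq' h4).2 (by linarith)))
  · filter_upwards [(isOpen_lt (d3.comp cL) continuous_const).mem_nhds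
      (show ρ3 (L 0) < 1 by rw [n0]; norm_num)] with u hu
    rw [key u (le_of_lt hu), hX, hY]
  · simp only [k0, hρ1.zero]; norm_num
  · simp only [k0, n0, hρ2.zero]; norm_num
  · intro u hu hs ht
    simp only [Prod.mk_eq_zero] at hu
    have h4 := (Submodule.projectionOnto_apply_eq_zero_iff c1).1 hu.1
    have h5 := (Submodule.projectionOnto_apply_eq_zero_iff c2).1 hu.2
    have h6 := (hρ2.lt' h5).1 (h12 _ ((hρ1.le' h4).2 (by linarith)) h5)
    rcases le_total (ρ3 (L u)) 1 with h7 | h7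
    · rw [key u h7, hX, hY] at hu
      exact Prod.ext hu.1 hu.2
    · rw [max_eq_left (by linarith)] at ht
      linarith
  · intro u hu
    rw [p4 _ (hLV u) (le_of_mul_le_mul_left (hu.trans (hK' u)) hK)]

end Pool.Agent.MP_5230e1_gt

end

-- part MP_5230e1_gt.Shrink
section

/-!
Shrinking the convex bodies: either the link is isotopic to one bounding disjoint convex bodies,
or three bodies with a common point form a directed cycle.
-/

set_option autoImplicit false

namespace Pool.Agent.MP_5230e1_gt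

open Set Filter Topology Metric

theorem exists_three_cycle {ι : Type*} [Finite ι] (r : ι → ι → Prop) (J : Set ι) (hne : J.Nonempty)
    (hasymm : ∀ i j, r i j → ¬ r j i) (htot : ∀ i ∈ J, ∀ j ∈ J, i ≠ j → r i j ∨ r j i)
    (hin : ∀ j ∈ J, ∃ i ∈ J, r i j) : ∃ i ∈ J, ∃ j ∈ J, ∃ k ∈ J, r i j ∧ r j k ∧ r k i := by
  obtain ⟨j, hj, hmin⟩ := exists_min_image J (fun j => {i | i ∈ J ∧ r i j}.ncard) (toFinite J) hne
  obtain ⟨i, hi, hij⟩ := hin j hj
  by_contra hc
  push Not at hc
  refine (hmin i hi).not_gt (ncard_lt_ncard ⟨fun k hk => ⟨hk.1, ?_⟩, fun h => ?_⟩ (toFinite _))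
  · have hkj : k ≠ j := by
      rintro rfl
      exact hasymm _ _ hij hk.2
    exact (htot k hk.1 j hj hkj).resolve_right fun h => hc i hi j hj k hk.1 hij h hk.2
  · have := (h ⟨hi, hij⟩).2
    exact hasymm _ _ this this

variable {E : Type*} [NormedAddCommGroup E] [InnerProductSpace ℝ E]
variable {ι : Type*}

/-- the decreasing sequence of forced parts -/
def KK (r : ι → ι → Prop) (a : ι → E) (V : ι → Submodule ℝ E) (C : ι → Set E) : ℕ → ι → Set E
  | 0 => C
  | n + 1 => fun j => closedConvexHull ℝ {y | y - a j ∈ V j ∧ ∃ i, r i j ∧ y ∈ KK r a V C n i}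

variable {r : ι → ι → Prop} {a : ι → E} {V : ι → Submodule ℝ E} {C : ι → Set E}

theorem KK_succ (hC : ∀ i, Body (a i) (V i) (C i))
    (hsub : ∀ i j, r i j → ∀ y ∈ C i, y - a j ∈ V j → y ∈ ri (V j) (C j)) (n : ℕ) :
    ∀ j, KK r a V C (n + 1) j ⊆ KK r a V C n j := by
  induction n with
  | zero =>
    intro j
    refine closedConvexHull_min ?_ (hC j).convex (hC j).compact.isClosed
    rintro y ⟨h1, i, h2, h3⟩
    exact ri_subset (hsub i j h2 y h3 h1)
  | succ n ih =>
    intro j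
    refine (closedConvexHull ℝ).monotone ?_
    rintro y ⟨h1, i, h2, h3⟩
    exact ⟨h1, i, h2, ih i h3⟩

theorem KK_anti (hC : ∀ i, Body (a i) (V i) (C i))
    (hsub : ∀ i j, r i j → ∀ y ∈ C i, y - a j ∈ V j → y ∈ ri (V j) (C j)) (j : ι) :
    Antitone fun n => KK r a V C n j :=
  antitone_nat_of_succ_le fun n => KK_succ hC hsub n j

theorem KK_compact (hC : ∀ i, Body (a i) (V i) (C i))
    (hsub : ∀ i j, r i j → ∀ y ∈ C i, y - a j ∈ V j → y ∈ ri (V j) (C j)) (n : ℕ) (j : ι) :
    IsCompact (KK r a V C n j) := by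
  refine (hC j).compact.of_isClosed_subset ?_ (KK_anti hC hsub j (Nat.zero_le n))
  cases n with
  | zero => exact (hC j).compact.isClosed
  | succ n => exact isClosed_closedConvexHull

theorem ev_not_mem {K : ℕ → Set E} (hK : ∀ n, IsCompact (K n)) (ha : Antitone K) {Z : Set E}
    (hZ : IsClosed Z) (h : ∀ y ∈ Z, ∃ n, y ∉ K n) : ∀ᶠ n in atTop, ∀ y ∈ Z, y ∉ K n := by
  by_contra hc
  have h1 : ∀ n, (K n ∩ Z).Nonempty := by
    intro n
    by_contra h2
    apply hc
    filter_upwards [eventually_ge_atTop n] with m hm y hy hy'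
    exact h2 ⟨y, ha hm hy', hy⟩
  obtain ⟨y, hy⟩ := IsCompact.nonempty_iInter_of_sequence_nonempty_isCompact_isClosed
    (fun n => K n ∩ Z) (fun n => inter_subset_inter_left _ (ha (Nat.le_succ n))) h1
    ((hK 0).inter_right hZ) fun n => (hK n).isClosed.inter hZ
  rw [mem_iInter] at hy
  obtain ⟨n, hn⟩ := h y (hy 0).2
  exact hn (hy n).1

variable [FiniteDimensional ℝ E] [Finite ι]

theorem plane_closed (b : E) (W : Submodule ℝ E) : IsClosed {y | y - b ∈ W} :=
  W.closed_of_finiteDimensional.preimage (continuous_id.sub continuous_const)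

theorem shrink_claim (hC : ∀ i, Body (a i) (V i) (C i))
    (hsub : ∀ i j, r i j → ∀ y ∈ C i, y - a j ∈ V j → y ∈ ri (V j) (C j))
    (htot : ∀ i j, i ≠ j → ∀ y ∈ C i, y ∈ C j → r i j ∨ r j i)
    (hnle : ∀ i j, r i j → ¬ V i ≤ V j) (n : ℕ) :
    ∀ U : ι → ι → Set E, (∀ i j, IsOpen (U i j)) →
      (∀ i j, r i j → ∀ y ∈ KK r a V C n i, y - a j ∈ V j → y ∈ U i j) →
      ∃ C' : ι → Set E, (∀ i, Body (a i) (V i) (C' i)) ∧ (∀ i, C' i ⊆ C i) ∧
        (∀ i j, r i j → ∀ y ∈ C' i, y - a j ∈ V j → y ∈ ri (V j) (C' j) ∧ y ∈ U i j) ∧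
        AmbientIsotopic (fun i => bd (V i) (C i)) (fun i => bd (V i) (C' i)) := by
  induction n with
  | zero =>
    intro U _ hU
    exact ⟨C, hC, fun _ => subset_rfl, fun i j hij y hy hy' =>
      ⟨hsub i j hij y hy hy', hU i j hij y hy hy'⟩, AmbientIsotopic.refl _⟩
  | succ n ih =>
    intro U hU hKU
    have h1 : ∀ j, ∃ δ, 0 < δ ∧ cthickening δ (KK r a V C (n + 1) j) ⊆
        ⋂ k : {k // r j k}, U j k ∪ {y | y - a k ∈ V k}ᶜ := by
      intro j
      refine (KK_compact hC hsub _ j).exists_cthickening_subset_open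
        (isOpen_iInter_of_finite fun k => (hU j k).union (plane_closed _ _).isOpen_compl) ?_
      refine subset_iInter fun k y hy => ?_
      by_cases h : y - a k ∈ V k
      · exact Or.inl (hKU j k k.2 y hy h)
      · exact Or.inr h
    choose δ hδ hδ' using h1
    obtain ⟨C', b1, b2, b3, b4⟩ := ih (fun _ j => thickening (δ j) (KK r a V C (n + 1) j))
      (fun _ _ => isOpen_thickening) fun i j hij y hy hy' =>
        self_subset_thickening (hδ j) _ (subset_closedConvexHull ⟨hy', i, hij, hy⟩)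
    have h2 : ∀ j, ∃ D : Set E, IsClosed D ∧ Convex ℝ D ∧ (∃ y ∈ ri (V j) (C' j), D ∈ 𝓝 y) ∧
        (∀ i, r i j → ∀ y ∈ C' i, y - a j ∈ V j → D ∈ 𝓝 y) ∧
        ∀ k, r j k → ∀ y ∈ D, y - a k ∈ V k → y ∈ U j k := by
      intro j
      by_cases h : ∃ i, r i j ∧ ∃ y ∈ C' i, y - a j ∈ V j
      · have h3 : ∀ i, r i j → ∀ y ∈ C' i, y - a j ∈ V j →
            cthickening (δ j) (KK r a V C (n + 1) j) ∈ 𝓝 y := fun i hij y hy hy' =>
          mem_of_superset (isOpen_thickening.mem_nhds (b3 i j hij y hy hy').2)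
            (thickening_subset_cthickening _ _)
        obtain ⟨i, hij, y, hy, hy'⟩ := h
        refine ⟨_, isClosed_cthickening, convex_closedConvexHull.cthickening _,
          ⟨y, (b3 i j hij y hy hy').1, h3 i hij y hy hy'⟩, h3, fun k hk z hz hz' => ?_⟩
        exact (mem_iInter.1 (hδ' j hz) ⟨k, hk⟩).resolve_right fun h => h hz'
      · obtain ⟨y, hy, hy'⟩ := (b1 j).exists_ri_avoid (fun k : {k // r j k} => a k)
          (fun k => V k) fun k => hnle j k k.2
        have h3 : (⋂ k : {k // r j k}, {y | y - a k ∈ V k}ᶜ) ∈ 𝓝 y :=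
          (isOpen_iInter_of_finite fun k => (plane_closed _ _).isOpen_compl).mem_nhds
            (mem_iInter.2 hy')
        obtain ⟨ε, hε, hε'⟩ := Metric.nhds_basis_closedBall.mem_iff.1 h3
        refine ⟨closedBall y ε, isClosed_closedBall, convex_closedBall _ _,
          ⟨y, hy, closedBall_mem_nhds y hε⟩, fun i hij z hz hz' => absurd ⟨i, hij, z, hz, hz'⟩ h,
          fun k hk z hz hz' => absurd hz' (mem_iInter.1 (hε' hz) ⟨k, hk⟩)⟩
    choose D d1 d2 d3 d4 d5 using h2
    have b5 : ∀ j, Body (a j) (V j) (C' j ∩ D j) := fun j => by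
      obtain ⟨y, hy, hy'⟩ := d3 j
      exact (b1 j).inter (d1 j) (d2 j) hy hy'
    have b6 : ∀ i j, r i j → ∀ y ∈ C' i, y - a j ∈ V j → y ∈ ri (V j) (C' j ∩ D j) :=
      fun i j hij y hy hy' => ri_inter (b3 i j hij y hy hy').1 (d4 j i hij y hy hy')
    refine ⟨fun j => C' j ∩ D j, b5, fun j => inter_subset_left.trans (b2 j),
      fun i j hij y hy hy' => ⟨b6 i j hij y hy.1 hy', d5 i j hij y hy.2 hy'⟩,
      b4.trans (shrink_all b1 b5 (fun _ => inter_subset_left) fun i j hij y hy hy' => ?_)⟩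
    rcases htot i j hij y (b2 i hy) (b2 j hy') with h | h
    · exact Or.inr (b6 i j h y hy ((b1 j).sub y hy'))
    · exact Or.inl (b6 j i h y hy' ((b1 i).sub y hy))

theorem shrink_or_cycle (hC : ∀ i, Body (a i) (V i) (C i))
    (hsub : ∀ i j, r i j → ∀ y ∈ C i, y - a j ∈ V j → y ∈ ri (V j) (C j))
    (htot : ∀ i j, i ≠ j → ∀ y ∈ C i, y ∈ C j → r i j ∨ r j i)
    (hnle : ∀ i j, r i j → ¬ V i ≤ V j) (hasymm : ∀ i j, r i j → ¬ r j i) :
    (∃ C' : ι → Set E, (∀ i, Body (a i) (V i) (C' i)) ∧ (∀ i j, i ≠ j → Disjoint (C' i) (C' j)) ∧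
        AmbientIsotopic (fun i => bd (V i) (C i)) (fun i => bd (V i) (C' i))) ∨
      ∃ i j k x, r i j ∧ r j k ∧ r k i ∧ x ∈ C i ∧ x ∈ C j ∧ x ∈ C k := by
  let L : ι → Set E := fun j => ⋂ n, KK r a V C n j
  have hL : ∀ j, IsCompact (L j) := fun j =>
    (KK_compact hC hsub 0 j).of_isClosed_subset
      (isClosed_iInter fun n => (KK_compact hC hsub n j).isClosed) (iInter_subset _ 0)
  have hLC : ∀ j, L j ⊆ C j := fun j => iInter_subset (fun n => KK r a V C n j) 0
  rcases (⋃ j, L j).eq_empty_or_nonempty with h | h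
  · left
    have h1 : ∀ᶠ n in atTop, ∀ j, ∀ y ∈ (univ : Set E), y ∉ KK r a V C n j :=
      eventually_all.2 fun j => ev_not_mem (fun n => KK_compact hC hsub n j) (KK_anti hC hsub j)
        isClosed_univ fun y _ => by
          by_contra hc
          push Not at hc
          exact (eq_empty_iff_forall_notMem.1 h y) (mem_iUnion.2 ⟨j, mem_iInter.2 hc⟩)
    obtain ⟨n, hn⟩ := h1.exists
    obtain ⟨C', b1, b2, b3, b4⟩ := shrink_claim hC hsub htot hnle n (fun _ _ => ∅)
      (fun _ _ => isOpen_empty) fun i j _ y hy _ => absurd hy (hn i y trivial)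
    refine ⟨C', b1, fun i j hij => disjoint_left.2 fun y hy hy' => ?_, b4⟩
    rcases htot i j hij y (b2 i hy) (b2 j hy') with h | h
    · exact (b3 i j h y hy ((b1 j).sub y hy')).2
    · exact (b3 j i h y hy' ((b1 i).sub y hy)).2
  · right
    obtain ⟨x, hx, hmax⟩ := (isCompact_iUnion hL).exists_isMaxOn h continuous_norm.continuousOn
    obtain ⟨i, hi, j, hj, k, hk, h1, h2, h3⟩ := exists_three_cycle r {j | x ∈ L j}
      (mem_iUnion.1 hx) hasymm (fun i hi j hj hij => htot i j hij x (hLC i hi) (hLC j hj)) (by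
        intro j hj
        by_contra hc
        push Not at hc
        have cin : Continuous fun y : E => inner ℝ x y := by fun_prop
        have h1 : ∀ᶠ n in atTop, ∀ i : {i // r i j},
            ∀ y ∈ {y : E | ‖x‖ ^ 2 ≤ inner ℝ x y}, y ∉ KK r a V C n i :=
          eventually_all.2 fun i => ev_not_mem (fun n => KK_compact hC hsub n i)
            (KK_anti hC hsub i) (isClosed_le continuous_const cin) fun y hy => by
              by_contra hc'
              push Not at hc'
              have hyL : y ∈ L i := mem_iInter.2 hc'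
              have h2 : ‖y‖ ≤ ‖x‖ := hmax (mem_iUnion.2 ⟨i, hyL⟩)
              have h3 : ‖x - y‖ ^ 2 ≤ 0 := by
                rw [norm_sub_sq_real]
                have : ‖x‖ ^ 2 ≤ inner ℝ x y := hy
                nlinarith [norm_nonneg y]
              have h4 : x = y := by
                rw [← sub_eq_zero, ← norm_eq_zero]
                exact pow_eq_zero_iff two_ne_zero |>.1 (le_antisymm h3 (by positivity))
              exact hc i (by rw [mem_ofPred_eq, h4]; exact hyL) i.2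
        obtain ⟨n, hn⟩ := h1.exists
        obtain ⟨κ, hκ, hκ'⟩ := (isCompact_iUnion fun i : {i // r i j} =>
          KK_compact hC hsub n i).exists_forall_le' (f := fun y => ‖x‖ ^ 2 - inner ℝ x y) (a := 0)
          (by fun_prop) fun y hy => by
            obtain ⟨i, hi⟩ := mem_iUnion.1 hy
            by_contra hc'
            exact hn i y (by simpa using hc') hi
        have h2 : KK r a V C (n + 1) j ⊆ {y | inner ℝ x y ≤ ‖x‖ ^ 2 - κ} := by
          refine closedConvexHull_min ?_ (convex_halfSpace_le (innerₛₗ ℝ x).isLinear _)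
            (isClosed_le cin continuous_const)
          rintro y ⟨-, i, hi, hy⟩
          have := hκ' y (mem_iUnion.2 ⟨⟨i, hi⟩, hy⟩)
          simp only [mem_ofPred_eq]
          linarith
        have h3 := h2 (mem_iInter.1 hj (n + 1))
        simp only [mem_ofPred_eq, real_inner_self_eq_norm_sq] at h3
        linarith)
    exact ⟨i, j, k, x, h1, h2, h3, hLC i hi, hLC j hj, hLC k hk⟩

end Pool.Agent.MP_5230e1_gt

end

-- part MP_5230e1_gt.Normal
section

/-!
Normal form of a cyclic triple of convex bodies: two round spheres and an almost round ellipsoid.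
-/

set_option autoImplicit false

namespace Pool.Agent.MP_5230e1_gt

open Set Filter Topology Metric

variable {E : Type*} [NormedAddCommGroup E] [InnerProductSpace ℝ E] [FiniteDimensional ℝ E]

/-- slab -/
def slab (x : E) (M : E →ₗ[ℝ] E) (c : ℝ) : Set E := {y | ‖M (y - x)‖ ≤ c}

/-- ellipsoid -/
def ell (x : E) (V : Submodule ℝ E) (M : E →ₗ[ℝ] E) (c : ℝ) : Set E :=
  {y | y - x ∈ V ∧ ‖M (y - x)‖ ≤ c}

variable {x : E} {V : Submodule ℝ E} {M : E →ₗ[ℝ] E} {c : ℝ}

theorem slab_closed : IsClosed (slab x M c) := by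
  have := M.continuous_of_finiteDimensional
  exact isClosed_le (by fun_prop) continuous_const

omit [FiniteDimensional ℝ E] in
theorem slab_convex : Convex ℝ (slab x M c) := by
  intro y hy z hz α β hα hβ hαβ
  have e : α • y + β • z - x = α • (y - x) + β • (z - x) := by
    rw [smul_sub, smul_sub]
    conv_lhs => rw [← one_smul ℝ x, ← hαβ, add_smul]
    abel
  simp only [slab, mem_ofPred_eq] at hy hz ⊢
  rw [e, map_add, map_smul, map_smul]
  refine (norm_add_le _ _).trans ?_
  rw [norm_smul, norm_smul, Real.norm_eq_abs, Real.norm_eq_abs, abs_of_nonneg hα, abs_of_nonneg hβ]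
  calc _ ≤ α * c + β * c := by gcongr
    _ = c := by rw [← add_mul, hαβ, one_mul]

theorem slab_nhds {y : E} (h : ‖M (y - x)‖ < c) : slab x M c ∈ 𝓝 y := by
  have := M.continuous_of_finiteDimensional
  filter_upwards [(isOpen_lt (f := fun y => ‖M (y - x)‖) (by fun_prop) continuous_const).mem_nhds h]
    with z hz using le_of_lt hz

theorem mem_ri_ell {y : E} (h1 : y - x ∈ V) (h : ‖M (y - x)‖ < c) : y ∈ ri V (ell x V M c) := by
  have : y ∈ ri V {y | y - x ∈ V} := ⟨1, one_pos, fun v hv _ => by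
    simpa [add_sub_right_comm] using V.add_mem h1 hv⟩
  exact ri_inter this (slab_nhds h)

theorem body_ell (hM : ∀ q, M q = 0 → q = 0) (hc : 0 < c) : Body x V (ell x V M c) := by
  refine ⟨?_, ?_, fun y hy => hy.1, x, mem_ri_ell (by simp) (by simpa using hc)⟩
  · obtain ⟨K, hK, hK'⟩ := exists_bound M hM
    refine Metric.isCompact_of_isClosed_isBounded ((plane_closed x V).inter slab_closed) ?_
    refine (isBounded_closedBall (x := x) (r := K * c)).subset fun y hy => ?_
    rw [mem_closedBall, dist_eq_norm]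
    exact (hK' _).trans (by gcongr; exact hy.2)
  · refine Convex.inter ?_ slab_convex
    intro y hy z hz α β hα hβ hαβ
    have e : α • y + β • z - x = α • (y - x) + β • (z - x) := by
      rw [smul_sub, smul_sub]
      conv_lhs => rw [← one_smul ℝ x, ← hαβ, add_smul]
      abel
    change _ ∈ V
    rw [e]
    exact V.add_mem (V.smul_mem _ hy) (V.smul_mem _ hz)

theorem bd_ell (hc : 0 < c) : bd V (ell x V M c) = {y | y - x ∈ V ∧ ‖M (y - x)‖ = c} := by
  ext y
  constructor
  · rintro ⟨⟨h1, h2⟩, h3⟩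
    exact ⟨h1, le_antisymm h2 (not_lt.1 fun h => h3 (mem_ri_ell h1 h))⟩
  · rintro ⟨h1, h2⟩
    refine ⟨⟨h1, h2.le⟩, ?_⟩
    rintro ⟨δ, hδ, h⟩
    have h3 : Tendsto (fun t : ℝ => ‖t • (y - x)‖) (𝓝[>] 0) (𝓝 0) := by
      have : Continuous fun t : ℝ => ‖t • (y - x)‖ := by fun_prop
      simpa using (this.tendsto 0).mono_left nhdsWithin_le_nhds
    obtain ⟨t, ht1, ht2⟩ := ((h3.eventually (Iio_mem_nhds hδ)).and self_mem_nhdsWithin).exists
    have ht2 : 0 < t := ht2
    have h4 := (h _ (V.smul_mem t h1) ht1).2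
    have e : y + t • (y - x) - x = (1 + t) • (y - x) := by rw [add_smul, one_smul]; abel
    rw [e, map_smul, norm_smul, h2, Real.norm_eq_abs, abs_of_pos (by linarith)] at h4
    nlinarith

omit [FiniteDimensional ℝ E] in
theorem round_of {k : ℕ} (hk : Module.finrank ℝ V = k + 1) (hc : 0 < c) :
    IsRoundSphere k c {y | y - x ∈ V ∧ ‖y - x‖ = c} := by
  refine ⟨hc, AffineSubspace.mk' x V, x, by rw [AffineSubspace.direction_mk', hk],
    AffineSubspace.self_mem_mk' _ _, ?_⟩
  ext y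
  simp [AffineSubspace.mem_mk', dist_eq_norm]

omit [FiniteDimensional ℝ E] in
theorem hausdorff_ell {θ : ℝ} (hθ : θ ≤ 1 / 2) (hM : ∀ q, |‖M q‖ - ‖q‖| ≤ θ * ‖q‖) (hc : 0 < c) :
    hausdorffEDist {y | y - x ∈ V ∧ ‖M (y - x)‖ = c} {y | y - x ∈ V ∧ ‖y - x‖ = c} ≤
      ENNReal.ofReal (2 * θ * c) := by
  have key : ∀ (q : E) (s : ℝ), dist (x + q) (x + s • q) = |1 - s| * ‖q‖ := by
    intro q s
    rw [dist_add_left, dist_eq_norm, ← Real.norm_eq_abs, ← norm_smul, sub_smul, one_smul]
  refine hausdorffEDist_le_of_mem_edist ?_ ?_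
  · rintro y ⟨h1, h2⟩
    have h3 := abs_le.1 (hM (y - x))
    rw [h2] at h3
    have h4 : 0 < ‖y - x‖ := by
      refine norm_pos_iff.2 fun h => ?_
      rw [h, map_zero, norm_zero] at h2; linarith
    have h5 : 0 ≤ θ := by nlinarith [h3.1, h3.2]
    refine ⟨x + (c / ‖y - x‖) • (y - x), ⟨by simpa using V.smul_mem _ h1, ?_⟩, ?_⟩
    · rw [add_sub_cancel_left, norm_smul, Real.norm_eq_abs, abs_of_pos (by positivity)]
      field_simp
    · rw [edist_dist]
      refine ENNReal.ofReal_le_ofReal ?_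
      have := key (y - x) (c / ‖y - x‖)
      rw [add_sub_cancel] at this
      rw [this, ← abs_of_pos h4, ← abs_mul, abs_of_pos h4, sub_mul, div_mul_cancel₀ _ h4.ne',
        one_mul, abs_le]
      have h6 : ‖y - x‖ ≤ 2 * c := by nlinarith [h3.1]
      constructor <;> nlinarith [h3.1, h3.2]
  · rintro y ⟨h1, h2⟩
    have h3 := abs_le.1 (hM (y - x))
    rw [h2] at h3
    have h5 : 0 ≤ θ := by nlinarith [h3.1, h3.2]
    have h6 : c / 2 ≤ ‖M (y - x)‖ := by nlinarith [h3.1]
    have h4 : 0 < ‖M (y - x)‖ := by linarith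
    refine ⟨x + (c / ‖M (y - x)‖) • (y - x), ⟨by simpa using V.smul_mem _ h1, ?_⟩, ?_⟩
    · rw [add_sub_cancel_left, map_smul, norm_smul, Real.norm_eq_abs, abs_of_pos (by positivity)]
      field_simp
    · rw [edist_dist]
      refine ENNReal.ofReal_le_ofReal ?_
      have := key (y - x) (c / ‖M (y - x)‖)
      rw [add_sub_cancel] at this
      rw [this, h2]
      gcongr
      rw [one_sub_div h4.ne', abs_div, abs_of_pos h4, div_le_iff₀ h4, abs_le]
      constructor <;> nlinarith [h3.1, h3.2]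

theorem shrink3 {V1 V2 V3 : Submodule ℝ E} {C1 C2 C3 D1 D2 D3 : Set E}
    (c1 : Body x V1 C1) (c2 : Body x V2 C2) (c3 : Body x V3 C3)
    (d1 : Body x V1 D1) (d2 : Body x V2 D2) (d3 : Body x V3 D3)
    (s1 : D1 ⊆ C1) (s2 : D2 ⊆ C2) (s3 : D3 ⊆ C3)
    (h12 : ∀ y ∈ C1, y ∈ C2 → y ∈ ri V2 D2) (h23 : ∀ y ∈ C2, y ∈ C3 → y ∈ ri V3 D3)
    (h31 : ∀ y ∈ C3, y ∈ C1 → y ∈ ri V1 D1) :
    AmbientIsotopic ![bd V1 C1, bd V2 C2, bd V3 C3] ![bd V1 D1, bd V2 D2, bd V3 D3] := by
  have := shrink_all (a := fun _ => x) (V := ![V1, V2, V3]) (C := ![C1, C2, C3])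
    (C' := ![D1, D2, D3]) (fun i => by fin_cases i <;> assumption)
    (fun i => by fin_cases i <;> assumption) (fun i => by fin_cases i <;> assumption) (by
      intro i j hij y hy hy'
      fin_cases i <;> fin_cases j
      · exact absurd rfl hij
      · exact Or.inr (h12 y hy hy')
      · exact Or.inl (h31 y hy' hy)
      · exact Or.inl (h12 y hy' hy)
      · exact absurd rfl hij
      · exact Or.inr (h23 y hy hy')
      · exact Or.inr (h31 y hy hy')
      · exact Or.inl (h23 y hy' hy)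
      · exact absurd rfl hij)
  convert this using 1 <;> funext i <;> fin_cases i <;> rfl

theorem normal_form {V1 V2 V3 : Submodule ℝ E} {C1 C2 C3 : Set E}
    (h1 : Body x V1 C1) (h2 : Body x V2 C2) (h3 : Body x V3 C3)
    (hx1 : x ∈ ri V1 C1) (hx2 : x ∈ ri V2 C2) (hx3 : x ∈ ri V3 C3)
    (h12 : ∀ y ∈ C1, y - x ∈ V2 → y ∈ ri V2 C2) (h23 : ∀ y ∈ C2, y - x ∈ V3 → y ∈ ri V3 C3)
    (h31 : ∀ y ∈ C3, y - x ∈ V1 → y ∈ ri V1 C1)
    (c1 : IsCompl (V2 ⊓ V3) V1) (c2 : IsCompl (V3 ⊓ V1) V2) {ε : ℝ} (hε : 0 < ε) :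
    ∃ (r1 r2 r3 : ℝ) (T : Set E), 0 < r1 ∧ 0 < r2 ∧ 0 < r3 ∧
      AmbientIsotopic ![bd V1 C1, bd V2 C2, bd V3 C3]
        ![{y | y - x ∈ V1 ∧ ‖y - x‖ = r1}, {y | y - x ∈ V2 ∧ ‖y - x‖ = r2}, T] ∧
      hausdorffEDist T {y | y - x ∈ V3 ∧ ‖y - x‖ = r3} ≤ ENNReal.ofReal (ε * r3) ∧
      ∃ A : E ≃ᵃ[ℝ] E, T = A '' {y | y - x ∈ V3 ∧ ‖y - x‖ = r3} := by
  let X := (V2 ⊓ V3).projection V1 c1
  let Y := (V3 ⊓ V1).projection V2 c2
  have X23 : ∀ q ∈ V2, q ∈ V3 → X q = q := fun q a b =>
    Submodule.projection_apply_of_mem_left c1 ⟨a, b⟩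
  have X1 : ∀ q ∈ V1, X q = 0 := fun q a => Submodule.projection_apply_of_mem_right c1 a
  have Y31 : ∀ q ∈ V3, q ∈ V1 → Y q = q := fun q a b =>
    Submodule.projection_apply_of_mem_left c2 ⟨a, b⟩
  have Y2 : ∀ q ∈ V2, Y q = 0 := fun q a => Submodule.projection_apply_of_mem_right c2 a
  obtain ⟨B, hB, hB'⟩ := (LinearMap.toContinuousLinearMap (Y - X)).bound
  obtain ⟨θ, hθ, hθ1, hθ2⟩ : ∃ θ > 0, θ ≤ 1 / 2 ∧ θ ≤ ε / 2 :=
    ⟨min (1 / 2) (ε / 2), by positivity, min_le_left _ _, min_le_right _ _⟩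
  obtain ⟨η, hη, hη1, hη2⟩ : ∃ η > 0, η ≤ 1 / 2 ∧ η ≤ θ / B :=
    ⟨min (1 / 2) (θ / B), by positivity, min_le_left _ _, min_le_right _ _⟩
  rw [le_div_iff₀ hB] at hη2
  let M : E →ₗ[ℝ] E := LinearMap.id + η • (Y - X)
  have hM : ∀ q, |‖M q‖ - ‖q‖| ≤ θ * ‖q‖ := by
    intro q
    refine (abs_norm_sub_norm_le _ _).trans ?_
    have e : M q - q = η • (Y - X) q := by simp [M]
    rw [e, norm_smul, Real.norm_eq_abs, abs_of_pos hη]
    calc _ ≤ η * (B * ‖q‖) := by gcongr; exact hB' q
      _ = η * B * ‖q‖ := by ring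
      _ ≤ _ := by gcongr
  have hM0 : ∀ q, M q = 0 → q = 0 := by
    intro q hq
    have := (abs_le.1 (hM q)).1
    rw [hq, norm_zero] at this
    exact norm_eq_zero.1 (by nlinarith [norm_nonneg q])
  have M23 : ∀ q ∈ V2, q ∈ V3 → ‖M q‖ = (1 - η) * ‖q‖ := by
    intro q a b
    have e : M q = (1 - η) • q := by simp [M, X23 q a b, Y2 q a, add_smul, sub_eq_add_neg]
    rw [e, norm_smul, Real.norm_eq_abs, abs_of_pos (by linarith)]
  have M31 : ∀ q ∈ V3, q ∈ V1 → ‖M q‖ = (1 + η) * ‖q‖ := by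
    intro q a b
    have e : M q = (1 + η) • q := by simp [M, Y31 q a b, X1 q b, add_smul]
    rw [e, norm_smul, Real.norm_eq_abs, abs_of_pos (by linarith)]
  obtain ⟨δ1, hδ1, g1⟩ := id hx1
  obtain ⟨δ2, hδ2, g2⟩ := id hx2
  obtain ⟨l, hl, hl1, hl2⟩ : ∃ l > 0, l < δ1 ∧ 2 * l < δ2 :=
    ⟨min (δ1 / 2) (δ2 / 4), by positivity, (min_le_left _ _).trans_lt (by linarith),
      by linarith [min_le_right (δ1 / 2) (δ2 / 4)]⟩
  have hl' : 0 < l * (1 + η) := by positivity
  let B1 := ell x V1 LinearMap.id l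
  let B2 := ell x V2 LinearMap.id (l * (1 + η))
  let E3 := C3 ∩ slab x Y (l / 2)
  let G3 := E3 ∩ slab x M l
  let T3 := ell x V3 M l
  have b1 : Body x V1 B1 := body_ell (fun _ h => h) hl
  have b2 : Body x V2 B2 := body_ell (fun _ h => h) hl'
  have t3 : Body x V3 T3 := body_ell hM0 hl
  have s1 : B1 ⊆ C1 := fun y hy => by simpa using g1 _ hy.1 (lt_of_le_of_lt hy.2 hl1)
  have s2 : B2 ⊆ C2 := fun y hy => by
    simpa using g2 _ hy.1 (lt_of_le_of_lt hy.2 (by nlinarith))
  have k23 : ∀ y ∈ C2, y - x ∈ V3 → y ∈ ri V3 E3 := fun y hy hy' =>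
    ri_inter (h23 y hy hy') (slab_nhds (by rw [Y2 _ (h2.sub y hy), norm_zero]; linarith))
  have e3 : Body x V3 E3 := h3.inter slab_closed slab_convex hx3 (slab_nhds (by simp; linarith))
  have k31 : ∀ y ∈ E3, y - x ∈ V1 → y ∈ ri V1 B1 := fun y hy hy' => mem_ri_ell hy' (by
    have := hy.2
    simp only [slab, mem_ofPred_eq, Y31 _ (e3.sub y hy) hy'] at this
    simp only [LinearMap.id_coe, id_eq]
    linarith)
  have k12 : ∀ y ∈ B1, y - x ∈ V2 → y ∈ ri V2 B2 := fun y hy hy' => mem_ri_ell hy'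
    (lt_of_le_of_lt hy.2 (by nlinarith))
  have m23 : ∀ y ∈ B2, y - x ∈ V3 → y ∈ ri V3 G3 := fun y hy hy' =>
    ri_inter (k23 y (s2 hy) hy') (slab_nhds (by
      rw [M23 _ hy.1 hy']
      have h4 : ‖y - x‖ ≤ l * (1 + η) := hy.2
      have h5 : (1 - η) * ‖y - x‖ ≤ (1 - η) * (l * (1 + η)) := by gcongr; linarith
      nlinarith [mul_pos hl (mul_pos hη hη)]))
  have g3 : Body x V3 G3 := e3.inter slab_closed slab_convex
    (k23 x (ri_subset hx2) (by simp)) (slab_nhds (by simpa using hl))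
  have i1 := shrink3 h1 h2 h3 h1 h2 e3 subset_rfl subset_rfl inter_subset_left
    (fun y a b => h12 y a (h2.sub y b)) (fun y a b => k23 y a (h3.sub y b))
    (fun y a b => h31 y a (h1.sub y b))
  have i2 := shrink3 h1 h2 e3 b1 h2 e3 s1 subset_rfl subset_rfl
    (fun y a b => h12 y a (h2.sub y b)) (fun y a b => k23 y a (e3.sub y b))
    (fun y a b => k31 y a (h1.sub y b))
  have i3 := shrink3 b1 h2 e3 b1 b2 e3 subset_rfl s2 subset_rfl
    (fun y a b => k12 y a (h2.sub y b)) (fun y a b => k23 y a (e3.sub y b))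
    (fun y a b => k31 y a (b1.sub y b))
  have i4 := shrink3 b1 b2 e3 b1 b2 g3 subset_rfl subset_rfl inter_subset_left
    (fun y a b => k12 y a (b2.sub y b)) (fun y a b => m23 y a (e3.sub y b))
    (fun y a b => k31 y a (b1.sub y b))
  have i5 := shrink3 b1 b2 t3 b1 b2 g3 subset_rfl subset_rfl (fun y hy => ⟨g3.sub y hy, hy.2⟩)
    (fun y a b => k12 y a (b2.sub y b)) (fun y a b => m23 y a b.1)
    (fun y a b => mem_ri_ell b.1 (by
      have h4 : ‖M (y - x)‖ ≤ l := a.2
      rw [M31 _ a.1 b.1] at h4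
      simp only [LinearMap.id_coe, id_eq]
      by_contra h5
      nlinarith))
  have i6 := (((i1.trans i2).trans i3).trans i4).trans i5.symm
  simp only [B1, B2, T3, bd_ell hl, bd_ell hl'] at i6
  refine ⟨l, l * (1 + η), l, _, hl, hl', hl, i6, (hausdorff_ell hθ1 hM hl).trans
    (ENNReal.ofReal_le_ofReal (by nlinarith)), ?_⟩
  let N : E ≃ₗ[ℝ] E := LinearEquiv.ofInjectiveEndo M
    (LinearMap.ker_eq_bot.1 (LinearMap.ker_eq_bot'.2 hM0))
  have hN : ∀ q, N q = M q := fun _ => rfl
  have hMV : ∀ q, M q ∈ V3 ↔ q ∈ V3 := by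
    intro q
    have e : M q = q + η • (Y q - X q) := by simp [M]
    rw [e]
    exact V3.add_mem_iff_left (V3.smul_mem _ (V3.sub_mem
      (Submodule.projection_apply_mem c2 q).1 (Submodule.projection_apply_mem c1 q).2))
  let A : E ≃ᵃ[ℝ] E :=
    (AffineEquiv.vaddConst ℝ x).symm.trans (N.toAffineEquiv.trans (AffineEquiv.vaddConst ℝ x))
  have hA : ∀ y, A y - x = M (y - x) := fun y => by simp [A, hN]
  refine ⟨A.symm, ?_⟩
  ext y
  rw [AffineEquiv.image_symm, mem_preimage, mem_ofPred_eq, mem_ofPred_eq, hA, hMV]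

end Pool.Agent.MP_5230e1_gt

end

-- part MP_5230e1_gt.Main
section

/-!
Convex Brunnian links have three components and are isotopic to nearly round links.
-/

set_option autoImplicit false

namespace Pool.Agent.MP_5230e1_gt

open Set Filter Topology Metric

variable {E : Type*} [NormedAddCommGroup E] [InnerProductSpace ℝ E]

theorem Generic.sup_eq_top {ι : Type*} {a : ι → E} {V : ι → Submodule ℝ E} (h : Generic a V)
    {i j k : ι} (hj : j ≠ i) (hk : k ≠ i) {x : E} (h1 : x - a i ∈ V i) (h2 : x - a j ∈ V j)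
    (h3 : x - a k ∈ V k) : (V j ⊓ V k) ⊔ V i = ⊤ := by
  classical
  rw [eq_top_iff]
  intro q _
  obtain ⟨z, hz⟩ := h {i, j, k} ⟨x, by
    rintro l (rfl | rfl | rfl) <;> assumption⟩ (Function.update 0 i q)
  have e1 := hz i (by simp)
  have e2 := hz j (by simp)
  have e3 := hz k (by simp)
  simp only [Function.update_self, Function.update_of_ne hj, Function.update_of_ne hk,
    Pi.zero_apply, sub_zero] at e1 e2 e3
  have : q = z - (z - q) := by abel
  rw [this]
  exact Submodule.sub_mem _ (Submodule.mem_sup_left ⟨e2, e3⟩) (Submodule.mem_sup_right e1)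

theorem gauge_lt_gauge {x : E} {V2 V3 : Submodule ℝ E} {C2 C3 : Set E} {ρ2 ρ3 : E → ℝ}
    (hρ2 : IsGauge V2 C2 x ρ2) (hρ3 : IsGauge V3 C3 x ρ3)
    (h : ∀ y ∈ C2, y - x ∈ V3 → y ∈ ri V3 C3) {q : E} (h2 : q ∈ V2) (h3 : q ∈ V3) (hq : q ≠ 0) :
    ρ3 q < ρ2 q := by
  have h4 := hρ2.pos hq
  have h5 := h _ (hρ2.normalize h2 hq).1 (by simpa using V3.smul_mem _ h3)
  rw [hρ3.lt _ (V3.smul_mem _ h3), hρ3.hom _ (by positivity), inv_mul_lt_iff₀ h4] at h5
  linarith

/-- the orientation of an intersecting pair -/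
def Arr {m : ℕ} (V : Fin m → Submodule ℝ E) (C : Fin m → Set E) (i j : Fin m) : Prop :=
  i ≠ j ∧ (∃ y ∈ C i, y ∈ C j) ∧ (∀ y ∈ bd (V j) (C j), y ∉ C i) ∧
    ((∃ y ∈ bd (V i) (C i), y ∈ C j) ∨ i < j)

theorem spans_of_unlink {ι : Type*} {k : ι → ℕ} {V : ι → Submodule ℝ E} {C : ι → Set E} {S : Set ι}
    (h : IsUnlink k (fun i => bd (V i) (C i)) S) {i j l : ι} (hi : i ∈ S) (hj : j ∈ S) (hl : l ∈ S)
    (hji : j ≠ i) (hli : l ≠ i) : Spans (V i) (C i) (bd (V j) (C j) ∪ bd (V l) (C l)) := by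
  obtain ⟨e, e1, e2, e3, e4⟩ := h i hi
  exact ⟨_, e, e1, e2, e3, disjoint_union_right.2 ⟨e4 j hj hji, e4 l hl hli⟩⟩

variable [FiniteDimensional ℝ E]

theorem main_generic {m : ℕ} {k : Fin m → ℕ} {a : Fin m → E} {V : Fin m → Submodule ℝ E}
    {C : Fin m → Set E} (hC : ∀ i, Body (a i) (V i) (C i))
    (hk : ∀ i, Module.finrank ℝ (V i) = k i + 1)
    (hd : ∀ i j, i ≠ j → Disjoint (bd (V i) (C i)) (bd (V j) (C j))) (hg : Generic a V)
    (hB : IsBrunnian k fun i => bd (V i) (C i)) {ε : ℝ} (hε : 0 < ε) :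
    m = 3 ∧ ∃ F', AmbientIsotopic (fun i => bd (V i) (C i)) F' ∧ IsNearlyRound ε k F' ∧
      ∀ i, IsEllipsoid (k i) (F' i) := by
  obtain ⟨hm, hnot, hsubl⟩ := hB
  have hV : ∀ i, V i ≠ ⊥ := fun i h => by
    have := hk i
    rw [h, finrank_bot] at this
    omega
  have : Nontrivial E := by
    obtain ⟨q, -, hq⟩ := (Submodule.ne_bot_iff _).1 (hV ⟨0, by omega⟩)
    exact ⟨q, 0, hq⟩
  have hpair : ∀ i j, j ≠ i → Spans (V i) (C i) (bd (V j) (C j)) := by
    intro i j hij
    have h1 : ({i, j} : Set (Fin m)) ≠ univ := by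
      intro h
      have h2 : ({i, j} : Set (Fin m)).ncard ≤ 2 := by simpa using ncard_insert_le i {j}
      rw [h, ncard_univ, Nat.card_eq_fintype_card, Fintype.card_fin] at h2
      omega
    simpa using spans_of_unlink (hsubl _ h1) (i := i) (j := j) (l := j) (by simp) (by simp)
      (by simp) hij hij
  have hsup : ∀ i j, i ≠ j → ∀ y ∈ C i, y ∈ C j → V i ⊔ V j = ⊤ := by
    intro i j hij y hi hj
    simpa using hg.sup_eq_top hij hij ((hC j).sub y hj) ((hC i).sub y hi) ((hC i).sub y hi)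
  have hasymm : ∀ i j, Arr V C i j → ¬ Arr V C j i := by
    rintro i j ⟨-, -, h1, h2⟩ ⟨-, -, h3, h4⟩
    have h5 : i < j := h2.resolve_left fun ⟨y, hy, hy'⟩ => h3 y hy hy'
    have h6 : j < i := h4.resolve_left fun ⟨y, hy, hy'⟩ => h1 y hy hy'
    exact lt_asymm h5 h6
  have htot : ∀ i j, i ≠ j → ∀ y ∈ C i, y ∈ C j → Arr V C i j ∨ Arr V C j i := by
    intro i j hij y hi hj
    by_cases h1 : ∃ y ∈ bd (V i) (C i), y ∈ C j <;> by_cases h2 : ∃ y ∈ bd (V j) (C j), y ∈ C i
    · obtain ⟨u, hu, hu'⟩ := h1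
      obtain ⟨v, hv, hv'⟩ := h2
      exact (not_spans_linked (hC i) (hC j) (hd i j hij) (hsup i j hij y hi hj) hu hu' hv hv'
        (hpair i j hij.symm)).elim
    · exact Or.inl ⟨hij, ⟨y, hi, hj⟩, fun z hz hz' => h2 ⟨z, hz, hz'⟩, Or.inl h1⟩
    · exact Or.inr ⟨hij.symm, ⟨y, hj, hi⟩, fun z hz hz' => h1 ⟨z, hz, hz'⟩, Or.inl h2⟩
    · rcases lt_or_gt_of_ne hij with h | h
      · exact Or.inl ⟨hij, ⟨y, hi, hj⟩, fun z hz hz' => h2 ⟨z, hz, hz'⟩, Or.inr h⟩
      · exact Or.inr ⟨hij.symm, ⟨y, hj, hi⟩, fun z hz hz' => h1 ⟨z, hz, hz'⟩, Or.inr h⟩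
  have hsub : ∀ i j, Arr V C i j → ∀ y ∈ C i, y - a j ∈ V j → y ∈ ri (V j) (C j) := by
    rintro i j ⟨-, ⟨p, hp, hp'⟩, h1, -⟩ y hy hy'
    exact (hC j).subset_ri (hC i).convex hp hp' h1 hy hy'
  have hntop : ∀ i j, Arr V C i j → V j ≠ ⊤ := by
    intro i j hij h
    obtain ⟨y, hy⟩ := (hC i).bd_nonempty (hV i)
    have h1 := hsub i j hij y hy.1 (by simp [h])
    have h2 := hpair j i hij.1
    have h3 := hC j
    rw [h] at h1 h2 h3
    exact not_spans_top h3 h1 hy h2
  have hnle : ∀ i j, Arr V C i j → ¬ V i ≤ V j := by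
    intro i j hij h
    obtain ⟨y, hy, hy'⟩ := hij.2.1
    exact hntop i j hij (by simpa [sup_eq_right.2 h] using hsup i j hij.1 y hy hy')
  rcases shrink_or_cycle hC hsub htot hnle hasymm with ⟨C', b1, b2, b3⟩ |
    ⟨i, j, l, x, hij, hjl, hli, xi, xj, xl⟩
  · refine absurd (b3.symm.isUnlink fun i _ => ?_) hnot
    obtain ⟨e, e1, e2, e3, e4⟩ := (b1 i).exists_ball (hk i)
    exact ⟨e, e1, e2, e3, fun j _ hji => (b2 i j hji.symm).mono e4 bd_subset⟩
  have rebase : ∀ i, x ∈ C i → Body x (V i) (C i) := fun i hi =>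
    ⟨(hC i).compact, (hC i).convex, fun y hy => (hC i).sub_mem hy hi, (hC i).ne⟩
  have hsub' : ∀ i j, Arr V C i j → x ∈ C j → ∀ y ∈ C i, y - x ∈ V j → y ∈ ri (V j) (C j) :=
    fun i j hij hx y hy hy' => hsub i j hij y hy (by
      simpa using (V j).add_mem hy' ((hC j).sub x hx))
  have ri1 := hsub l i hli x xl ((hC i).sub x xi)
  have ri2 := hsub i j hij x xi ((hC j).sub x xj)
  have ri3 := hsub j l hjl x xj ((hC l).sub x xl)
  have h12 := hsub' i j hij xj
  have h23 := hsub' j l hjl xl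
  have h31 := hsub' l i hli xi
  have htriv : ∀ q ∈ V i, q ∈ V j → q ∈ V l → q = 0 := by
    intro q q1 q2 q3
    by_contra hq
    obtain ⟨ρ1, hρ1⟩ := (hC i).exists_gauge ri1
    obtain ⟨ρ2, hρ2⟩ := (hC j).exists_gauge ri2
    obtain ⟨ρ3, hρ3⟩ := (hC l).exists_gauge ri3
    linarith [gauge_lt_gauge hρ1 hρ2 h12 q1 q2 hq, gauge_lt_gauge hρ2 hρ3 h23 q2 q3 hq,
      gauge_lt_gauge hρ3 hρ1 h31 q3 q1 hq]
  have c1 : IsCompl (V j ⊓ V l) (V i) :=
    ⟨Submodule.disjoint_def.2 fun q h1 h2 => htriv q h2 h1.1 h1.2, codisjoint_iff.2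
      (hg.sup_eq_top hij.1.symm hli.1 ((hC i).sub x xi) ((hC j).sub x xj) ((hC l).sub x xl))⟩
  have c2 : IsCompl (V l ⊓ V i) (V j) :=
    ⟨Submodule.disjoint_def.2 fun q h1 h2 => htriv q h1.2 h2 h1.1, codisjoint_iff.2
      (hg.sup_eq_top hjl.1.symm hij.1 ((hC j).sub x xj) ((hC l).sub x xl) ((hC i).sub x xi))⟩
  have huniv : ({i, j, l} : Set (Fin m)) = univ := by
    by_contra h
    exact not_spans_borromean (hC i) (hC j) (hC l) ri1 ri2 ri3 h12 h23 h31 c1 c2 (hntop l i hli)
      (hntop i j hij) (spans_of_unlink (hsubl _ h) (by simp) (by simp) (by simp) hli.1.symm hjl.1)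
  obtain ⟨r1, r2, r3, T, p1, p2, p3, ⟨H, H1, H2, H3, H4⟩, hT, A, hA⟩ := normal_form (rebase i xi)
    (rebase j xj) (rebase l xl) ri1 ri2 ri3 h12 h23 h31 c1 c2 hε
  have q1 : H 1 '' bd (V i) (C i) = {y | y - x ∈ V i ∧ ‖y - x‖ = r1} := H4 0
  have q2 : H 1 '' bd (V j) (C j) = {y | y - x ∈ V j ∧ ‖y - x‖ = r2} := H4 1
  have q3 : H 1 '' bd (V l) (C l) = T := H4 2
  refine ⟨?_, fun i => H 1 '' bd (V i) (C i), ⟨H, H1, H2, H3, fun _ => rfl⟩, ⟨l, fun t ht => ?_,
    r3, _, round_of (x := x) (hk l) p3, ?_⟩, fun t => ?_⟩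
  · have h2 := ncard_eq_three.2 ⟨i, j, l, hij.1, hli.1.symm, hjl.1, rfl⟩
    rw [huniv, ncard_univ, Nat.card_eq_fintype_card, Fintype.card_fin] at h2
    exact h2
  · have : t ∈ ({i, j, l} : Set (Fin m)) := huniv ▸ mem_univ t
    rcases this with rfl | rfl | rfl
    · exact ⟨r1, by simp only [q1]; exact round_of (hk t) p1⟩
    · exact ⟨r2, by simp only [q2]; exact round_of (hk t) p2⟩
    · exact absurd rfl ht
  · simp only [q3]; exact hT
  · have : t ∈ ({i, j, l} : Set (Fin m)) := huniv ▸ mem_univ t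
    rcases this with rfl | rfl | rfl
    · exact ⟨r1, _, AffineEquiv.refl ℝ E, round_of (x := x) (hk t) p1, by simp [q1]⟩
    · exact ⟨r2, _, AffineEquiv.refl ℝ E, round_of (x := x) (hk t) p2, by simp [q2]⟩
    · exact ⟨r3, _, A, round_of (x := x) (hk t) p3, by simp only [q3]; exact hA⟩

theorem main {m : ℕ} {k : Fin m → ℕ} {F : Fin m → Set E} (hF : ∀ i, IsConvexKnot (k i) (F i))
    (hd : ∀ i j, i ≠ j → Disjoint (F i) (F j)) (hB : IsBrunnian k F) {ε : ℝ} (hε : 0 < ε) :
    m = 3 ∧ ∃ F', AmbientIsotopic F F' ∧ IsNearlyRound ε k F' ∧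
      ∀ i, IsEllipsoid (k i) (F' i) := by
  choose a V C hC hk hFC using fun i => body_of_convexKnot (hF i)
  obtain rfl : F = fun i => bd (V i) (C i) := funext hFC
  have hV : ∀ i, V i ≠ ⊥ := fun i h => by
    have := hk i
    rw [h, finrank_bot] at this
    omega
  obtain ⟨a', C', b1, b2, b3⟩ := exists_generic hC hV hd
  obtain ⟨h1, F', h2, h3⟩ := main_generic b1 hk (fun i j hij => b3.disjoint (hd i j hij)) b2
    ⟨hB.1, fun h => hB.2.1 (b3.symm.isUnlink h), fun S hS => b3.isUnlink (hB.2.2 S hS)⟩ hε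
  exact ⟨h1, F', b3.trans h2, h3⟩

end Pool.Agent.MP_5230e1_gt

end
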